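import Mathlib

/-! Partitions with exactly two or three part sizes, in frequency notation. -/

namespace Pool.Agent.Q224.Nu

open Finset

/-- The number of partitions of `m` in which exactly `k` distinct part sizes occur. -/
def nu (k m : ℕ) : ℕ :=
  (univ.filter (fun P : Nat.Partition m => P.parts.toFinset.card = k)).card

/-- Partitions into two part sizes: `m = a i + b j`, `b < a`. -/
def N2 (m : ℕ) : Finset (ℕ × ℕ × ℕ × ℕ) :=
  (Icc 1 m ×ˢ Icc 1 m ×ˢ Icc 1 m ×ˢ Icc 1 m).filter
    (fun t => t.2.2.1 < t.1 ∧ t.1 * t.2.1 + t.2.2.1 * t.2.2.2 = m)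

lemma mem_N2 {m a i b j : ℕ} : (a, i, b, j) ∈ N2 m ↔
    1 ≤ b ∧ b < a ∧ 1 ≤ i ∧ 1 ≤ j ∧ a * i + b * j = m := by
  simp only [N2, mem_filter, mem_product, mem_Icc]
  constructor
  · rintro ⟨⟨⟨h1, h2⟩, ⟨h3, h4⟩, ⟨h5, h6⟩, h7, h8⟩, h9, h10⟩
    exact ⟨h5, h9, h3, h7, h10⟩
  · rintro ⟨h1, h2, h3, h4, h5⟩
    have e1 : a ≤ a * i := Nat.le_mul_of_pos_right _ h3
    have e2 : i ≤ a * i := Nat.le_mul_of_pos_left _ (by omega)
    have e3 : b ≤ b * j := Nat.le_mul_of_pos_right _ h4
    have e4 : j ≤ b * j := Nat.le_mul_of_pos_left _ (by omega)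
    exact ⟨⟨⟨by omega, by omega⟩, ⟨by omega, by omega⟩, ⟨by omega, by omega⟩, by omega, by omega⟩,
      h2, h5⟩

/-- Partitions into three part sizes: `m = a i + b j + c l`, `c < b < a`. -/
def N3 (m : ℕ) : Finset (ℕ × ℕ × ℕ × ℕ × ℕ × ℕ) :=
  (Icc 1 m ×ˢ Icc 1 m ×ˢ Icc 1 m ×ˢ Icc 1 m ×ˢ Icc 1 m ×ˢ Icc 1 m).filter
    (fun t => t.2.2.1 < t.1 ∧ t.2.2.2.2.1 < t.2.2.1 ∧
      t.1 * t.2.1 + t.2.2.1 * t.2.2.2.1 + t.2.2.2.2.1 * t.2.2.2.2.2 = m)

lemma mem_N3 {m a i b j c l : ℕ} : (a, i, b, j, c, l) ∈ N3 m ↔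
    1 ≤ c ∧ c < b ∧ b < a ∧ 1 ≤ i ∧ 1 ≤ j ∧ 1 ≤ l ∧ a * i + b * j + c * l = m := by
  simp only [N3, mem_filter, mem_product, mem_Icc]
  constructor
  · rintro ⟨⟨⟨h1, h2⟩, ⟨h3, h4⟩, ⟨h5, h6⟩, ⟨h7, h8⟩, ⟨h9, h10⟩, h11, h12⟩, h13, h14, h15⟩
    exact ⟨h9, h14, h13, h3, h7, h11, h15⟩
  · rintro ⟨h1, h2, h3, h4, h5, h6, h7⟩
    have e1 : a ≤ a * i := Nat.le_mul_of_pos_right _ h4
    have e2 : i ≤ a * i := Nat.le_mul_of_pos_left _ (by omega)
    have e3 : b ≤ b * j := Nat.le_mul_of_pos_right _ h5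
    have e4 : j ≤ b * j := Nat.le_mul_of_pos_left _ (by omega)
    have e5 : c ≤ c * l := Nat.le_mul_of_pos_right _ h6
    have e6 : l ≤ c * l := Nat.le_mul_of_pos_left _ (by omega)
    exact ⟨⟨⟨by omega, by omega⟩, ⟨by omega, by omega⟩, ⟨by omega, by omega⟩, ⟨by omega, by omega⟩,
      ⟨by omega, by omega⟩, by omega, by omega⟩, h3, h2, h7⟩

/-- the partition with `i` parts `a` and `j` parts `b` -/
def mk2 (m a i b j : ℕ) (h : (a, i, b, j) ∈ N2 m) : Nat.Partition m where
  parts := Multiset.replicate i a + Multiset.replicate j b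
  parts_pos := by
    intro x hx
    rw [mem_N2] at h
    rcases Multiset.mem_add.1 hx with h1 | h1
    · rw [Multiset.eq_of_mem_replicate h1]; omega
    · rw [Multiset.eq_of_mem_replicate h1]; omega
  parts_sum := by
    rw [mem_N2] at h
    obtain ⟨_, _, _, _, h5⟩ := h
    rw [Multiset.sum_add, Multiset.sum_replicate, Multiset.sum_replicate]
    simp only [smul_eq_mul]
    rw [← h5]; ring

lemma count_mk2 {m a i b j : ℕ} (h : (a, i, b, j) ∈ N2 m) (t : ℕ) :
    (mk2 m a i b j h).parts.count t = (if a = t then i else 0) + (if b = t then j else 0) := by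
  simp only [mk2, Multiset.count_add, Multiset.count_replicate]

lemma inj2 {a i b j a' i' b' j' : ℕ} (h : b < a) (_hi : 1 ≤ i) (_hj : 1 ≤ j) (h' : b' < a')
    (hi' : 1 ≤ i') (hj' : 1 ≤ j')
    (hc : ∀ t, (if a = t then i else 0) + (if b = t then j else 0) =
        (if a' = t then i' else 0) + (if b' = t then j' else 0)) :
    a = a' ∧ i = i' ∧ b = b' ∧ j = j' := by
  have h1 := hc a
  have h2 := hc b
  have h3 := hc a'
  have h4 := hc b'
  rw [if_pos rfl, if_neg (by omega)] at h1
  rw [if_neg (by omega), if_pos rfl] at h2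
  rw [if_pos (rfl : a' = a'), if_neg (by omega : ¬ b' = a')] at h3
  rw [if_neg (by omega : ¬ a' = b'), if_pos (rfl : b' = b')] at h4
  have ha : a = a' ∨ a = b' := by
    by_contra hcon
    push Not at hcon
    rw [if_neg (fun h => hcon.1 h.symm), if_neg (fun h => hcon.2 h.symm)] at h1
    omega
  have hb : b = a' ∨ b = b' := by
    by_contra hcon
    push Not at hcon
    rw [if_neg (fun h => hcon.1 h.symm), if_neg (fun h => hcon.2 h.symm)] at h2
    omega
  have e1 : a = a' := by omega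
  have e2 : b = b' := by omega
  subst e1
  subst e2
  rw [if_pos rfl, if_neg (by omega)] at h1
  rw [if_neg (by omega), if_pos rfl] at h2
  omega

lemma parts2 {m : ℕ} (P : Nat.Partition m) {a b : ℕ} (hab : b < a)
    (hs : P.parts.toFinset = {a, b}) :
    (a, P.parts.count a, b, P.parts.count b) ∈ N2 m ∧
      P.parts = Multiset.replicate (P.parts.count a) a +
        Multiset.replicate (P.parts.count b) b := by
  have hmem : ∀ t, t ∈ P.parts ↔ t = a ∨ t = b := by
    intro t; rw [← Multiset.mem_toFinset, hs]; simp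
  have ha : a ∈ P.parts := (hmem a).2 (Or.inl rfl)
  have hb : b ∈ P.parts := (hmem b).2 (Or.inr rfl)
  have hpa : 0 < a := P.parts_pos ha
  have hpb : 0 < b := P.parts_pos hb
  have heq : P.parts = Multiset.replicate (P.parts.count a) a +
      Multiset.replicate (P.parts.count b) b := by
    ext t
    rw [Multiset.count_add, Multiset.count_replicate, Multiset.count_replicate]
    by_cases h1 : a = t
    · subst h1
      rw [if_pos rfl, if_neg (by omega)]; rfl
    · by_cases h2 : b = t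
      · subst h2
        rw [if_neg (by omega), if_pos rfl]; omega
      · rw [if_neg h1, if_neg h2]
        rw [Multiset.count_eq_zero]
        intro h3
        rcases (hmem t).1 h3 with h4 | h4
        · exact h1 h4.symm
        · exact h2 h4.symm
  have hsum : a * P.parts.count a + b * P.parts.count b = m := by
    have h1 : (Multiset.replicate (P.parts.count a) a +
      Multiset.replicate (P.parts.count b) b).sum = m := by rw [← heq]; exact P.parts_sum
    rw [Multiset.sum_add, Multiset.sum_replicate, Multiset.sum_replicate] at h1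
    simp only [smul_eq_mul] at h1
    rw [mul_comm a, mul_comm b]; exact h1
  refine ⟨?_, heq⟩
  rw [mem_N2]
  exact ⟨hpb, hab, Multiset.count_pos.2 ha, Multiset.count_pos.2 hb, hsum⟩

theorem nu_two (m : ℕ) : nu 2 m = (N2 m).card := by
  unfold nu
  symm
  refine Finset.card_bij (fun t ht => mk2 m t.1 t.2.1 t.2.2.1 t.2.2.2 ht) ?_ ?_ ?_
  · rintro ⟨a, i, b, j⟩ ht
    have h := mem_N2.1 ht
    simp only [mem_filter, mem_univ, true_and]
    have : (mk2 m a i b j ht).parts.toFinset = {a, b} := by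
      ext t
      rw [Multiset.mem_toFinset, ← Multiset.count_pos, count_mk2]
      simp only [mem_insert, mem_singleton]
      constructor
      · intro h1
        by_cases ha : a = t
        · left; exact ha.symm
        · by_cases hb : b = t
          · right; exact hb.symm
          · simp [ha, hb] at h1
      · rintro (h1 | h1)
        · subst h1; simp; omega
        · subst h1; simp; omega
    rw [this]
    exact Finset.card_pair (by omega)
  · rintro ⟨a, i, b, j⟩ ht ⟨a', i', b', j'⟩ ht' he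
    have h := mem_N2.1 ht
    have h' := mem_N2.1 ht'
    have hc : ∀ t, (if a = t then i else 0) + (if b = t then j else 0) =
        (if a' = t then i' else 0) + (if b' = t then j' else 0) := by
      intro t
      rw [← count_mk2 ht, ← count_mk2 ht', show mk2 m a i b j ht = mk2 m a' i' b' j' ht' from he]
    obtain ⟨e1, e2, e3, e4⟩ := inj2 h.2.1 h.2.2.1 h.2.2.2.1 h'.2.1 h'.2.2.1 h'.2.2.2.1 hc
    rw [e1, e2, e3, e4]
  · intro P hP
    simp only [mem_filter, mem_univ, true_and] at hP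
    obtain ⟨a, b, hab, hs⟩ : ∃ a b, b < a ∧ P.parts.toFinset = {a, b} := by
      obtain ⟨x, y, hxy, hs⟩ := Finset.card_eq_two.1 hP
      rcases Nat.lt_or_gt_of_ne hxy with h | h
      · exact ⟨y, x, h, by rw [hs, Finset.pair_comm]⟩
      · exact ⟨x, y, h, hs⟩
    obtain ⟨h1, h2⟩ := parts2 P hab hs
    refine ⟨(a, P.parts.count a, b, P.parts.count b), h1, ?_⟩
    apply Nat.Partition.ext
    exact h2.symm

end Pool.Agent.Q224.Nu
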