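import Pool.Agent.Q224.Nu.Basic

namespace Pool.Agent.Q224.Nu

open Finset

/-- the partition with `i` parts `a`, `j` parts `b`, `l` parts `c` -/
def mk3 (m a i b j c l : ℕ) (h : (a, i, b, j, c, l) ∈ N3 m) : Nat.Partition m where
  parts := Multiset.replicate i a + Multiset.replicate j b + Multiset.replicate l c
  parts_pos := by
    intro x hx
    rw [mem_N3] at h
    rcases Multiset.mem_add.1 hx with h1 | h1
    · rcases Multiset.mem_add.1 h1 with h2 | h2
      · rw [Multiset.eq_of_mem_replicate h2]; omega
      · rw [Multiset.eq_of_mem_replicate h2]; omega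
    · rw [Multiset.eq_of_mem_replicate h1]; omega
  parts_sum := by
    rw [mem_N3] at h
    obtain ⟨_, _, _, _, _, _, h5⟩ := h
    rw [Multiset.sum_add, Multiset.sum_add, Multiset.sum_replicate, Multiset.sum_replicate,
      Multiset.sum_replicate]
    simp only [smul_eq_mul]
    rw [← h5]; ring

lemma count_mk3 {m a i b j c l : ℕ} (h : (a, i, b, j, c, l) ∈ N3 m) (t : ℕ) :
    (mk3 m a i b j c l h).parts.count t =
      (if a = t then i else 0) + (if b = t then j else 0) + (if c = t then l else 0) := by
  simp only [mk3, Multiset.count_add, Multiset.count_replicate]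

lemma mem3 {a i b j c l t : ℕ} (hi : 1 ≤ i) (hj : 1 ≤ j) (hl : 1 ≤ l) :
    0 < (if a = t then i else 0) + (if b = t then j else 0) + (if c = t then l else 0) ↔
      t = a ∨ t = b ∨ t = c := by
  constructor
  · intro h1
    by_cases ha : a = t
    · left; exact ha.symm
    · by_cases hb : b = t
      · right; left; exact hb.symm
      · by_cases hc : c = t
        · right; right; exact hc.symm
        · rw [if_neg ha, if_neg hb, if_neg hc] at h1; omega
  · rintro (h1 | h1 | h1)
    · rw [if_pos h1.symm]; omega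
    · rw [if_pos (h1.symm : b = t)]; omega
    · rw [if_pos (h1.symm : c = t)]; omega

lemma inj3 {a i b j c l a' i' b' j' c' l' : ℕ} (h1 : b < a) (h2 : c < b) (hi : 1 ≤ i) (hj : 1 ≤ j)
    (hl : 1 ≤ l) (h1' : b' < a') (h2' : c' < b') (hi' : 1 ≤ i') (hj' : 1 ≤ j') (hl' : 1 ≤ l')
    (hc : ∀ t, (if a = t then i else 0) + (if b = t then j else 0) + (if c = t then l else 0) =
        (if a' = t then i' else 0) + (if b' = t then j' else 0) + (if c' = t then l' else 0)) :
    a = a' ∧ i = i' ∧ b = b' ∧ j = j' ∧ c = c' ∧ l = l' := by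
  have hm : ∀ t, (t = a ∨ t = b ∨ t = c) ↔ (t = a' ∨ t = b' ∨ t = c') := by
    intro t
    rw [← mem3 (a := a) (b := b) (c := c) hi hj hl, hc t, mem3 hi' hj' hl']
  have ma := (hm a).1 (Or.inl rfl)
  have mb := (hm b).1 (Or.inr (Or.inl rfl))
  have mc := (hm c).1 (Or.inr (Or.inr rfl))
  have e1 : a = a' := by omega
  have e2 : b = b' := by omega
  have e3 : c = c' := by omega
  subst e1
  subst e2
  subst e3
  have k1 := hc a
  have k2 := hc b
  have k3 := hc c
  rw [if_pos rfl, if_neg (by omega), if_neg (by omega), if_pos rfl, if_neg (by omega),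
    if_neg (by omega)] at k1
  rw [if_neg (by omega), if_pos rfl, if_neg (by omega), if_neg (by omega), if_pos rfl,
    if_neg (by omega)] at k2
  rw [if_neg (by omega), if_neg (by omega), if_pos rfl, if_neg (by omega), if_neg (by omega),
    if_pos rfl] at k3
  omega

lemma parts3 {m : ℕ} (P : Nat.Partition m) {a b c : ℕ} (hab : b < a) (hbc : c < b)
    (hs : P.parts.toFinset = {a, b, c}) :
    (a, P.parts.count a, b, P.parts.count b, c, P.parts.count c) ∈ N3 m ∧
      P.parts = Multiset.replicate (P.parts.count a) a +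
        Multiset.replicate (P.parts.count b) b + Multiset.replicate (P.parts.count c) c := by
  have hmem : ∀ t, t ∈ P.parts ↔ t = a ∨ t = b ∨ t = c := by
    intro t; rw [← Multiset.mem_toFinset, hs]; simp
  have ha : a ∈ P.parts := (hmem a).2 (Or.inl rfl)
  have hb : b ∈ P.parts := (hmem b).2 (Or.inr (Or.inl rfl))
  have hc : c ∈ P.parts := (hmem c).2 (Or.inr (Or.inr rfl))
  have hpc : 0 < c := P.parts_pos hc
  have heq : P.parts = Multiset.replicate (P.parts.count a) a +
      Multiset.replicate (P.parts.count b) b + Multiset.replicate (P.parts.count c) c := by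
    ext t
    rw [Multiset.count_add, Multiset.count_add, Multiset.count_replicate,
      Multiset.count_replicate, Multiset.count_replicate]
    by_cases h1 : a = t
    · subst h1
      rw [if_pos rfl, if_neg (by omega), if_neg (by omega)]; omega
    · by_cases h2 : b = t
      · subst h2
        rw [if_neg (by omega), if_pos rfl, if_neg (by omega)]; omega
      · by_cases h3 : c = t
        · subst h3
          rw [if_neg (by omega), if_neg (by omega), if_pos rfl]; omega
        · rw [if_neg h1, if_neg h2, if_neg h3]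
          rw [Multiset.count_eq_zero]
          intro h4
          rcases (hmem t).1 h4 with h5 | h5 | h5
          · exact h1 h5.symm
          · exact h2 h5.symm
          · exact h3 h5.symm
  have hsum : a * P.parts.count a + b * P.parts.count b + c * P.parts.count c = m := by
    have h1 : (Multiset.replicate (P.parts.count a) a +
      Multiset.replicate (P.parts.count b) b + Multiset.replicate (P.parts.count c) c).sum = m := by
      rw [← heq]; exact P.parts_sum
    rw [Multiset.sum_add, Multiset.sum_add, Multiset.sum_replicate, Multiset.sum_replicate,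
      Multiset.sum_replicate] at h1
    simp only [smul_eq_mul] at h1
    rw [mul_comm a, mul_comm b, mul_comm c]; exact h1
  refine ⟨?_, heq⟩
  rw [mem_N3]
  exact ⟨hpc, hbc, hab, Multiset.count_pos.2 ha, Multiset.count_pos.2 hb, Multiset.count_pos.2 hc,
    hsum⟩

lemma sort3 {s : Finset ℕ} (hs : s.card = 3) : ∃ a b c, b < a ∧ c < b ∧ s = {a, b, c} := by
  obtain ⟨x, y, z, hxy, hxz, hyz, rfl⟩ := Finset.card_eq_three.1 hs
  rcases Nat.lt_or_gt_of_ne hxy with h1 | h1 <;> rcases Nat.lt_or_gt_of_ne hxz with h2 | h2 <;>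
    rcases Nat.lt_or_gt_of_ne hyz with h3 | h3
  · exact ⟨z, y, x, h3, h1, by ext t; simp; tauto⟩
  · exact ⟨y, z, x, h3, h2, by ext t; simp; tauto⟩
  · omega
  · exact ⟨y, x, z, h1, h2, by ext t; simp; tauto⟩
  · exact ⟨z, x, y, h2, h1, by ext t; simp; tauto⟩
  · omega
  · exact ⟨x, z, y, h2, h3, by ext t; simp; tauto⟩
  · exact ⟨x, y, z, h1, h3, rfl⟩

theorem nu_three (m : ℕ) : nu 3 m = (N3 m).card := by
  unfold nu
  symm
  refine Finset.card_bij
    (fun t ht => mk3 m t.1 t.2.1 t.2.2.1 t.2.2.2.1 t.2.2.2.2.1 t.2.2.2.2.2 ht) ?_ ?_ ?_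
  · rintro ⟨a, i, b, j, c, l⟩ ht
    have h := mem_N3.1 ht
    simp only [mem_filter, mem_univ, true_and]
    have : (mk3 m a i b j c l ht).parts.toFinset = {a, b, c} := by
      ext t
      rw [Multiset.mem_toFinset, ← Multiset.count_pos, count_mk3,
        mem3 h.2.2.2.1 h.2.2.2.2.1 h.2.2.2.2.2.1]
      simp only [mem_insert, mem_singleton]
    rw [this]
    rw [Finset.card_eq_three]
    exact ⟨a, b, c, by omega, by omega, by omega, rfl⟩
  · rintro ⟨a, i, b, j, c, l⟩ ht ⟨a', i', b', j', c', l'⟩ ht' he
    have h := mem_N3.1 ht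
    have h' := mem_N3.1 ht'
    have hc : ∀ t, (if a = t then i else 0) + (if b = t then j else 0) + (if c = t then l else 0) =
        (if a' = t then i' else 0) + (if b' = t then j' else 0) + (if c' = t then l' else 0) := by
      intro t
      rw [← count_mk3 ht, ← count_mk3 ht',
        show mk3 m a i b j c l ht = mk3 m a' i' b' j' c' l' ht' from he]
    obtain ⟨e1, e2, e3, e4, e5, e6⟩ := inj3 h.2.2.1 h.2.1 h.2.2.2.1 h.2.2.2.2.1 h.2.2.2.2.2.1
      h'.2.2.1 h'.2.1 h'.2.2.2.1 h'.2.2.2.2.1 h'.2.2.2.2.2.1 hc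
    rw [e1, e2, e3, e4, e5, e6]
  · intro P hP
    simp only [mem_filter, mem_univ, true_and] at hP
    obtain ⟨a, b, c, hab, hbc, hs⟩ := sort3 hP
    obtain ⟨h1, h2⟩ := parts3 P hab hbc hs
    refine ⟨(a, P.parts.count a, b, P.parts.count b, c, P.parts.count c), h1, ?_⟩
    apply Nat.Partition.ext
    exact h2.symm

end Pool.Agent.Q224.Nu
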