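import Pool.Agent.Q224.Nu.ThreeB

namespace Pool.Agent.Q224.Nu

open Finset

/-- `(A, B)` is a `(ν_k, M)`-progression. -/
def IsProg (k M A B : ℕ) : Prop :=
  1 ≤ B ∧ B ≤ A ∧ ∀ n : ℕ, M ∣ nu k (A * n + B)

/-- The set `P(A, B) = {A n + B : n ≥ 0}`. -/
def PSet (A B : ℕ) : Set ℕ := {m | ∃ n : ℕ, m = A * n + B}

/-- `(A, B)` is a maximal `(ν_k, M)`-progression. -/
def IsMaxProg (k M A B : ℕ) : Prop :=
  IsProg k M A B ∧ ¬ ∃ A' B' : ℕ, IsProg k M A' B' ∧ PSet A B ⊂ PSet A' B'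

lemma dvd_of_subset {A B A' B' : ℕ} (h : PSet A B ⊆ PSet A' B') : A' ∣ A := by
  obtain ⟨n, hn⟩ := h ⟨0, rfl⟩
  obtain ⟨l, hl⟩ := h ⟨1, rfl⟩
  have h1 : A' * n + A = A' * l := by
    simp only [mul_zero, mul_one, zero_add] at hn hl
    omega
  exact (Nat.dvd_add_right (Dvd.intro n rfl)).1 (h1 ▸ Dvd.intro l rfl)

lemma exists_max {k M A B : ℕ} (h : IsProg k M A B) :
    ∃ A' B' : ℕ, IsMaxProg k M A' B' ∧ PSet A B ⊆ PSet A' B' := by
  classical
  have hex : ∃ a : ℕ, ∃ b : ℕ, IsProg k M a b ∧ PSet A B ⊆ PSet a b := ⟨A, B, h, subset_rfl⟩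
  obtain ⟨b, hb1, hb2⟩ := Nat.find_spec hex
  refine ⟨Nat.find hex, b, ⟨hb1, ?_⟩, hb2⟩
  rintro ⟨A', B', h1, h2⟩
  have h3 : Nat.find hex ≤ A' := Nat.find_min' hex ⟨B', h1, hb2.trans h2.subset⟩
  have h4 := dvd_of_subset h2.subset
  have hpos : 0 < Nat.find hex := lt_of_lt_of_le hb1.1 hb1.2.1
  have h5 : A' = Nat.find hex := le_antisymm (Nat.le_of_dvd hpos h4) h3
  obtain ⟨n, hn⟩ := h2.subset ⟨0, rfl⟩
  have h6 : n = 0 := by
    rcases Nat.eq_zero_or_pos n with h7 | h7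
    · exact h7
    · exfalso
      have h8 : A' ≤ A' * n := Nat.le_mul_of_pos_right _ h7
      have h9 := hb1.2.1
      have h10 := h1.1
      simp only [mul_zero, zero_add] at hn
      omega
  subst h6
  simp only [mul_zero, zero_add] at hn
  rw [h5, ← hn] at h2
  exact (ssubset_irrefl _ h2).elim

/-- A criterion for infinitely many maximal progressions. -/
theorem infinite_max {k M : ℕ} (h6 : ¬ M ∣ nu k 6)
    (h : ∀ N : ℕ, ∃ p : ℕ, N < p ∧ p.Prime ∧ ∃ B, B % 8 = 6 ∧ IsProg k M (8 * p ^ 2) B) :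
    Set.Infinite {AB : ℕ × ℕ | IsMaxProg k M AB.1 AB.2} := by
  intro hfin
  obtain ⟨N, hN⟩ := (hfin.image Prod.fst).bddAbove
  obtain ⟨p, hp1, hp2, B, hB, hprog⟩ := h N
  obtain ⟨A', B', hmax, hsub⟩ := exists_max hprog
  have hA' : A' ≤ N := hN ⟨(A', B'), hmax, rfl⟩
  obtain ⟨⟨g1, g2, g3⟩, _⟩ := hmax
  have hdvd := dvd_of_subset hsub
  have hcop : Nat.Coprime A' (p ^ 2) := by
    apply Nat.Coprime.pow_right
    rw [Nat.coprime_comm]
    exact (Nat.Prime.coprime_iff_not_dvd hp2).2 (fun hd => by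
      have := Nat.le_of_dvd (by omega) hd
      omega)
  have h8 : A' ∣ 8 := hcop.dvd_of_dvd_mul_right hdvd
  obtain ⟨n, hn⟩ := hsub ⟨0, rfl⟩
  simp only [mul_zero, zero_add] at hn
  have hle : A' ≤ 8 := Nat.le_of_dvd (by norm_num) h8
  have h9 : ∃ l, 6 = A' * l + B' := by
    interval_cases A'
    · omega
    · exact ⟨5, by omega⟩
    · exact ⟨2, by omega⟩
    · omega
    · exact ⟨1, by omega⟩
    · omega
    · omega
    · omega
    · exact ⟨0, by omega⟩
  obtain ⟨l, hl⟩ := h9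
  apply h6
  rw [hl]
  exact g3 l

lemma exists_prime (N : ℕ) : ∃ p : ℕ, N < p ∧ p.Prime ∧ p % 8 = 7 := by
  have hu : IsUnit (7 : ZMod 8) := by decide
  obtain ⟨p, hp1, hp2, hp3⟩ := Nat.forall_exists_prime_gt_and_eq_mod hu N
  refine ⟨p, hp1, hp2, ?_⟩
  have h7 : ((p : ℕ) : ZMod 8) = ((7 : ℕ) : ZMod 8) := by rw [hp3]; rfl
  have := (ZMod.natCast_eq_natCast_iff' p 7 8).1 h7
  omega

lemma nu_three_six : nu 3 6 % 2 = 1 := by
  rw [nu_three, N3_parity_VT]
  decide +kernel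

/-- The progressions for `ν₃`. -/
lemma prog_three {p : ℕ} (hp : p.Prime) (hp8 : p % 8 = 7) :
    IsProg 3 2 (8 * p ^ 2) (2 * (p * (2 * p - 1))) := by
  have hp2 := hp.two_le
  refine ⟨?_, ?_, ?_⟩
  · have : 0 < p * (2 * p - 1) := Nat.mul_pos (by omega) (by omega)
    omega
  · have h1 : p * (2 * p - 1) ≤ p * (2 * p) := Nat.mul_le_mul_left _ (by omega)
    have h2 : p * (2 * p) = 2 * p ^ 2 := by ring
    omega
  · intro n
    obtain ⟨q, hq⟩ : ∃ q, p = 8 * q + 7 := ⟨p / 8, by omega⟩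
    set w : ℕ := 4 * p * n + (2 * p - 1) with hw
    have hw1 : w + 1 = p * (4 * n + 2) := by
      have : 2 * p - 1 + 1 = 2 * p := by omega
      rw [hw]
      calc 4 * p * n + (2 * p - 1) + 1 = 4 * p * n + (2 * p - 1 + 1) := by ring
        _ = 4 * p * n + 2 * p := by rw [this]
        _ = p * (4 * n + 2) := by ring
    have he : 8 * p ^ 2 * n + 2 * (p * (2 * p - 1)) = 2 * (p * w) := by
      rw [hw]; ring
    have hu : (p * w) % 4 = 3 := by
      have h1 : w % 4 = 1 := by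
        have : w + 1 = 4 * (p * n + 4 * q + 3) + 2 := by rw [hw1, hq]; ring
        omega
      rw [Nat.mul_mod, h1, show p % 4 = 3 by omega]
    have hw0 : w ≠ 0 := by
      intro h0
      rw [h0, mul_zero] at hu
      omega
    have hcop : Nat.Coprime p w := by
      rw [Nat.Prime.coprime_iff_not_dvd hp]
      intro hd
      have h1 : p ∣ w + 1 := ⟨4 * n + 2, hw1⟩
      have h2 : p ∣ 1 := (Nat.dvd_add_right hd).1 h1
      have := Nat.le_of_dvd one_pos h2
      omega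
    have hns : ∀ r, r * r ≠ w := by
      intro r hr
      haveI : Fact p.Prime := ⟨hp⟩
      have h1 : ((r : ZMod p)) ^ 2 = -1 := by
        have h2 : ((w + 1 : ℕ) : ZMod p) = 0 := by
          rw [hw1, Nat.cast_mul, ZMod.natCast_self, zero_mul]
        rw [← hr] at h2
        push_cast at h2
        linear_combination h2
      have h3 := ZMod.mod_four_ne_three_of_sq_eq_neg_one h1
      omega
    have hd1 : w.divisors.card = 2 * (w.divisors.filter (fun y => y * y < w)).card :=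
      card_divisors_nonsq hns hw0
    have hd2 : (p * w).divisors.card = 2 * w.divisors.card := by
      rw [Nat.Coprime.card_divisors_mul hcop, Nat.Prime.divisors hp,
        Finset.card_pair (by omega : 1 ≠ p)]
    rw [he, Nat.dvd_iff_mod_eq_zero, nu_three_divisors hu, hd2, hd1]
    omega

/-- Q2: infinitely many maximal `(ν₃, 2)`-progressions. -/
theorem infinite_three : Set.Infinite {AB : ℕ × ℕ | IsMaxProg 3 2 AB.1 AB.2} := by
  apply infinite_max
  · rw [Nat.dvd_iff_mod_eq_zero, nu_three_six]; decide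
  · intro N
    obtain ⟨p, hp1, hp2, hp3⟩ := exists_prime N
    refine ⟨p, hp1, hp2, 2 * (p * (2 * p - 1)), ?_, prog_three hp2 hp3⟩
    obtain ⟨q, hq⟩ : ∃ q, p = 8 * q + 7 := ⟨p / 8, by omega⟩
    have e1 : 2 * p - 1 = 16 * q + 13 := by omega
    rw [e1, hq]
    have : 2 * ((8 * q + 7) * (16 * q + 13)) = 8 * (32 * q ^ 2 + 54 * q + 22) + 6 := by ring
    omega

end Pool.Agent.Q224.Nu
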