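import Pool.Agent.Q224.Nu.BasicThree

namespace Pool.Agent.Q224.Nu

open Finset

/-- Parity by an involution. -/
lemma parity_invol {α : Type*} [DecidableEq α] (s : Finset α) (g : α → α)
    (hg : ∀ x ∈ s, g x ∈ s) (hgg : ∀ x ∈ s, g (g x) = x) :
    s.card % 2 = (s.filter (fun x => g x = x)).card % 2 := by
  have h1 : s.card = (s.filter (fun x => g x = x)).card + (s.filter (fun x => ¬ g x = x)).card :=
    (Finset.card_filter_add_card_filter_not (s := s) (fun x => g x = x)).symm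
  have h2 : ((s.filter (fun x => ¬ g x = x)).card : ZMod 2) = 0 := by
    have h3 : ∑ x ∈ s.filter (fun x => ¬ g x = x), (1 : ZMod 2) = 0 := by
      apply Finset.sum_involution (fun x _ => g x)
      · intro a _; decide
      · intro a ha _
        exact (mem_filter.1 ha).2
      · intro a ha
        rw [mem_filter] at ha ⊢
        refine ⟨hg a ha.1, ?_⟩
        intro h
        rw [hgg a ha.1] at h
        exact ha.2 h.symm
      · intro a ha
        exact hgg a (mem_filter.1 ha).1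
    rw [Finset.sum_const, nsmul_eq_mul, mul_one] at h3
    exact h3
  have h4 : 2 ∣ (s.filter (fun x => ¬ g x = x)).card := (ZMod.natCast_eq_zero_iff _ _).1 h2
  omega

/-! ### conjugation -/

def conj3 (t : ℕ × ℕ × ℕ × ℕ × ℕ × ℕ) : ℕ × ℕ × ℕ × ℕ × ℕ × ℕ :=
  (t.2.1 + t.2.2.2.1 + t.2.2.2.2.2, t.2.2.2.2.1, t.2.1 + t.2.2.2.1, t.2.2.1 - t.2.2.2.2.1,
    t.2.1, t.1 - t.2.2.1)

/-- triples `y < f < e` with `y² + e² = m + f²` -/
def VT (m : ℕ) : Finset (ℕ × ℕ × ℕ) :=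
  (Icc 1 m ×ˢ Icc 1 m ×ˢ Icc 1 m).filter
    (fun t => t.1 < t.2.1 ∧ t.2.1 < t.2.2 ∧ t.1 ^ 2 + t.2.2 ^ 2 = m + t.2.1 ^ 2)

lemma mem_VT {m y f e : ℕ} : (y, f, e) ∈ VT m ↔
    1 ≤ y ∧ y < f ∧ f < e ∧ y ^ 2 + e ^ 2 = m + f ^ 2 := by
  simp only [VT, mem_filter, mem_product, mem_Icc]
  constructor
  · rintro ⟨⟨⟨h1, h2⟩, ⟨h3, h4⟩, h5, h6⟩, h7, h8, h9⟩
    exact ⟨h1, h7, h8, h9⟩
  · rintro ⟨h1, h2, h3, h4⟩
    have e1 : e + f ≤ m := by
      obtain ⟨d, rfl⟩ : ∃ d, e = f + 1 + d := ⟨e - f - 1, by omega⟩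
      nlinarith [Nat.zero_le (d * d), Nat.zero_le (f * d), Nat.zero_le (y ^ 2)]
    exact ⟨⟨⟨by omega, by omega⟩, ⟨by omega, by omega⟩, by omega, by omega⟩, h2, h3, h4⟩

lemma N3_parity_VT (m : ℕ) : (N3 m).card % 2 = (VT m).card % 2 := by
  rw [parity_invol (N3 m) conj3]
  · congr 1
    refine Finset.card_bij (fun t _ => (t.2.2.2.1, t.2.2.2.1 + t.2.2.2.2.2, t.1)) ?_ ?_ ?_
    · rintro ⟨a, i, b, j, c, l⟩ ht
      rw [mem_filter, mem_N3] at ht
      obtain ⟨⟨h1, h2, h3, h4, h5, h6, h7⟩, h8⟩ := ht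
      simp only [conj3, Prod.mk.injEq] at h8
      obtain ⟨g1, g2, g3, g4, g5, g6⟩ := h8
      show (j, j + l, a) ∈ VT m
      rw [mem_VT]
      refine ⟨h5, by omega, by omega, ?_⟩
      subst g5
      have hb : b = i + j := g3.symm
      subst hb
      have ha : a = i + j + l := g1.symm
      subst ha
      rw [← h7]; ring
    · rintro ⟨a, i, b, j, c, l⟩ ht ⟨a', i', b', j', c', l'⟩ ht' he
      rw [mem_filter, mem_N3] at ht ht'
      obtain ⟨⟨h1, h2, h3, h4, h5, h6, h7⟩, h8⟩ := ht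
      obtain ⟨⟨k1, k2, k3, k4, k5, k6, k7⟩, k8⟩ := ht'
      simp only [conj3, Prod.mk.injEq] at h8 k8 he ⊢
      omega
    · rintro ⟨y, f, e⟩ ht
      rw [mem_VT] at ht
      obtain ⟨h1, h2, h3, h4⟩ := ht
      refine ⟨(e, e - f, y + e - f, y, e - f, f - y), ?_, ?_⟩
      · rw [mem_filter, mem_N3]
        obtain ⟨s, rfl⟩ : ∃ s, f = y + 1 + s := ⟨f - y - 1, by omega⟩
        obtain ⟨r, rfl⟩ : ∃ r, e = y + 1 + s + 1 + r := ⟨e - (y + 1 + s) - 1, by omega⟩
        have e1 : y + 1 + s + 1 + r - (y + 1 + s) = r + 1 := by omega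
        have e2 : y + (y + 1 + s + 1 + r) - (y + 1 + s) = y + r + 1 := by omega
        have e3 : y + 1 + s - y = s + 1 := by omega
        rw [e1, e2, e3]
        refine ⟨⟨by omega, by omega, by omega, by omega, by omega, by omega, ?_⟩, ?_⟩
        · have h5 : m + (y + 1 + s) ^ 2 = y ^ 2 + (y + 1 + s + 1 + r) ^ 2 := h4.symm
          apply Nat.add_right_cancel (m := (y + 1 + s) ^ 2)
          rw [h5]; ring
        · simp only [conj3, Prod.mk.injEq, true_and]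
          omega
      · show (y, y + (f - y), e) = (y, f, e)
        rw [Prod.mk.injEq, Prod.mk.injEq]; omega
  · rintro ⟨a, i, b, j, c, l⟩ ht
    rw [mem_N3] at ht
    obtain ⟨h1, h2, h3, h4, h5, h6, h7⟩ := ht
    show (i + j + l, c, i + j, b - c, i, a - b) ∈ N3 m
    rw [mem_N3]
    refine ⟨h4, by omega, by omega, h1, by omega, by omega, ?_⟩
    obtain ⟨s, rfl⟩ : ∃ s, b = c + s := ⟨b - c, by omega⟩
    obtain ⟨r, rfl⟩ : ∃ r, a = c + s + r := ⟨a - (c + s), by omega⟩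
    have e1 : c + s - c = s := by omega
    have e2 : c + s + r - (c + s) = r := by omega
    rw [e1, e2, ← h7]; ring
  · rintro ⟨a, i, b, j, c, l⟩ ht
    rw [mem_N3] at ht
    obtain ⟨h1, h2, h3, h4, h5, h6, h7⟩ := ht
    simp only [conj3, Prod.mk.injEq, true_and]
    omega

/-! ### the reflection -/

/-- the conditions without the order of `Y²` and `E²` -/
def PZ (m Y F E : ℤ) : Prop :=
  Y % 4 = 1 ∧ E % 4 = 1 ∧ F % 2 = 0 ∧ Y ^ 2 + E ^ 2 = m + F ^ 2 ∧ (Y - F) * (E - F) < 0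

lemma PZ_swap {m Y F E : ℤ} (h : PZ m Y F E) : PZ m E F Y := by
  obtain ⟨h1, h2, h3, h4, h5⟩ := h
  exact ⟨h2, h1, h3, by linarith, by linarith [mul_comm (Y - F) (E - F)]⟩

lemma PZ_refl {m Y F E : ℤ} (h : PZ m Y F E) :
    PZ m (-Y - 2 * E + 2 * F) (3 * F - 2 * Y - 2 * E) (-E - 2 * Y + 2 * F) := by
  obtain ⟨h1, h2, h3, h4, h5⟩ := h
  refine ⟨by omega, by omega, by omega, ?_, ?_⟩
  · linear_combination h4
  · have : (-Y - 2 * E + 2 * F - (3 * F - 2 * Y - 2 * E)) *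
      (-E - 2 * Y + 2 * F - (3 * F - 2 * Y - 2 * E)) = (Y - F) * (E - F) := by ring
    rw [this]; exact h5

lemma PZ_ne {m Y F E : ℤ} (h : PZ m Y F E) : Y ^ 2 ≠ E ^ 2 := by
  obtain ⟨h1, h2, h3, h4, h5⟩ := h
  intro he
  rcases sq_eq_sq_iff_eq_or_eq_neg.1 he with h6 | h6
  · rw [h6] at h5
    nlinarith [mul_self_nonneg (E - F)]
  · omega

lemma PZ_lt {m Y F E : ℤ} (h : PZ m Y F E) (hYE : Y ^ 2 < E ^ 2) : F ^ 2 < E ^ 2 := by
  obtain ⟨h1, h2, h3, h4, h5⟩ := h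
  by_contra hcon
  push Not at hcon
  have a1 : |E| ≤ |F| := sq_le_sq.1 hcon
  have a2 : |Y| < |F| := lt_of_lt_of_le (sq_lt_sq.1 hYE) a1
  rcases le_total 0 F with hF | hF
  · rw [abs_of_nonneg hF] at a1 a2
    have b1 := (abs_le.1 a1).2
    have b2 := (abs_lt.1 a2).2
    nlinarith [mul_nonneg (sub_nonneg.2 b1) (sub_nonneg.2 b2.le)]
  · rw [abs_of_nonpos hF] at a1 a2
    have b1 := (abs_le.1 a1).1
    have b2 := (abs_lt.1 a2).1
    nlinarith [mul_nonneg (by linarith : 0 ≤ E - F) (by linarith : 0 ≤ Y - F)]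

lemma PZ_bound {m Y F E : ℤ} (h : PZ m Y F E) (hYE : Y ^ 2 < E ^ 2) :
    |Y| ≤ m ∧ |F| ≤ m ∧ |E| ≤ m := by
  have h1 := sq_lt_sq.1 (PZ_lt h hYE)
  have h2 := sq_lt_sq.1 hYE
  obtain ⟨_, _, _, h4, _⟩ := h
  have h5 := abs_nonneg F
  have h6 := abs_nonneg Y
  have h7 : |E| + |F| ≤ m := by
    have e1 := sq_abs E
    have e2 := sq_abs F
    have e3 := sq_nonneg Y
    have e4 : (|E| - |F|) * (|E| + |F|) ≤ m := by nlinarith
    nlinarith
  exact ⟨by linarith, by linarith, by linarith [abs_nonneg E]⟩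

/-- the finite set of all triples with `Y² < E²` -/
noncomputable def Z (m : ℕ) : Finset (ℤ × ℤ × ℤ) :=
  (Icc (-(m : ℤ)) m ×ˢ Icc (-(m : ℤ)) m ×ˢ Icc (-(m : ℤ)) m).filter
    (fun t => (t.1 % 4 = 1 ∧ t.2.2 % 4 = 1 ∧ t.2.1 % 2 = 0 ∧
      t.1 ^ 2 + t.2.2 ^ 2 = (m : ℤ) + t.2.1 ^ 2 ∧ (t.1 - t.2.1) * (t.2.2 - t.2.1) < 0) ∧
      t.1 ^ 2 < t.2.2 ^ 2)

lemma mem_Z {m : ℕ} {Y F E : ℤ} : (Y, F, E) ∈ Z m ↔ PZ m Y F E ∧ Y ^ 2 < E ^ 2 := by
  simp only [Z, mem_filter, mem_product, mem_Icc]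
  constructor
  · rintro ⟨_, h1, h2⟩
    exact ⟨h1, h2⟩
  · rintro ⟨h1, h2⟩
    obtain ⟨b1, b2, b3⟩ := PZ_bound h1 h2
    exact ⟨⟨abs_le.1 b1, abs_le.1 b2, abs_le.1 b3⟩, h1, h2⟩

def refl3 (t : ℤ × ℤ × ℤ) : ℤ × ℤ × ℤ :=
  if (-t.1 - 2 * t.2.2 + 2 * t.2.1) ^ 2 < (-t.2.2 - 2 * t.1 + 2 * t.2.1) ^ 2 then
    (-t.1 - 2 * t.2.2 + 2 * t.2.1, 3 * t.2.1 - 2 * t.1 - 2 * t.2.2,
      -t.2.2 - 2 * t.1 + 2 * t.2.1)
  else
    (-t.2.2 - 2 * t.1 + 2 * t.2.1, 3 * t.2.1 - 2 * t.1 - 2 * t.2.2,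
      -t.1 - 2 * t.2.2 + 2 * t.2.1)

lemma refl3_mem {m : ℕ} : ∀ t ∈ Z m, refl3 t ∈ Z m := by
  rintro ⟨Y, F, E⟩ h
  rw [mem_Z] at h
  have h1 := PZ_refl h.1
  unfold refl3
  simp only
  split_ifs with h2
  · rw [mem_Z]; exact ⟨h1, h2⟩
  · rw [mem_Z]
    refine ⟨PZ_swap h1, ?_⟩
    exact lt_of_le_of_ne (not_lt.1 h2) (PZ_ne h1).symm

lemma refl3_refl3 {m : ℕ} : ∀ t ∈ Z m, refl3 (refl3 t) = t := by
  rintro ⟨Y, F, E⟩ h
  rw [mem_Z] at h
  unfold refl3
  simp only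
  split_ifs with h2 h3 h3
  · simp only [Prod.mk.injEq]
    refine ⟨by ring, by ring, by ring⟩
  · exfalso
    apply h3
    have e1 : (-(-Y - 2 * E + 2 * F) - 2 * (-E - 2 * Y + 2 * F) + 2 * (3 * F - 2 * Y - 2 * E)) ^ 2
      = Y ^ 2 := by ring
    have e2 : (-(-E - 2 * Y + 2 * F) - 2 * (-Y - 2 * E + 2 * F) + 2 * (3 * F - 2 * Y - 2 * E)) ^ 2
      = E ^ 2 := by ring
    rw [e1, e2]; exact h.2
  · exfalso
    have e1 : (-(-E - 2 * Y + 2 * F) - 2 * (-Y - 2 * E + 2 * F) + 2 * (3 * F - 2 * Y - 2 * E)) ^ 2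
      = E ^ 2 := by ring
    have e2 : (-(-Y - 2 * E + 2 * F) - 2 * (-E - 2 * Y + 2 * F) + 2 * (3 * F - 2 * Y - 2 * E)) ^ 2
      = Y ^ 2 := by ring
    rw [e1, e2] at h3
    exact absurd h3 (not_lt.2 h.2.le)
  · simp only [Prod.mk.injEq]
    refine ⟨by ring, by ring, by ring⟩

lemma refl3_fix {m : ℕ} {Y F E : ℤ} (h : (Y, F, E) ∈ Z m) :
    refl3 (Y, F, E) = (Y, F, E) ↔ F = Y + E := by
  rw [mem_Z] at h
  unfold refl3
  simp only
  constructor
  · intro he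
    split_ifs at he with h2
    · simp only [Prod.mk.injEq] at he
      linarith [he.1, he.2.1, he.2.2]
    · simp only [Prod.mk.injEq] at he
      linarith [he.1, he.2.1, he.2.2]
  · intro he
    subst he
    have e1 : -Y - 2 * E + 2 * (Y + E) = Y := by ring
    have e2 : -E - 2 * Y + 2 * (Y + E) = E := by ring
    rw [e1, e2, if_pos h.2]
    simp only [Prod.mk.injEq]
    refine ⟨trivial, by ring, trivial⟩

/-- `|Z|` has the parity of the set of its elements with `F = Y + E`. -/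
lemma Z_parity (m : ℕ) :
    (Z m).card % 2 = ((Z m).filter (fun t => t.2.1 = t.1 + t.2.2)).card % 2 := by
  rw [parity_invol (Z m) refl3 refl3_mem refl3_refl3]
  congr 2
  apply Finset.filter_congr
  rintro ⟨Y, F, E⟩ h
  exact refl3_fix h

/-- The part of `Z` with `F² < Y²` has even cardinality. -/
lemma Zii_even {m : ℕ} (hm : m % 8 = 6) :
    ((Z m).filter (fun t => t.2.1 ^ 2 < t.1 ^ 2)).card % 2 = 0 := by
  rw [parity_invol _ (fun t : ℤ × ℤ × ℤ => (t.1, -t.2.1, t.2.2))]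
  · have : (((Z m).filter (fun t => t.2.1 ^ 2 < t.1 ^ 2)).filter
      (fun t : ℤ × ℤ × ℤ => (t.1, -t.2.1, t.2.2) = t)) = ∅ := by
      rw [Finset.filter_eq_empty_iff]
      rintro ⟨Y, F, E⟩ h he
      rw [mem_filter, mem_Z] at h
      obtain ⟨⟨⟨h1, h2, h3, h4, h5⟩, h6⟩, h7⟩ := h
      simp only [Prod.mk.injEq] at he
      have hF : F = 0 := by omega
      subst hF
      have a1 : ∃ k, Y = 4 * k + 1 := ⟨Y / 4, by omega⟩
      have a2 : ∃ k, E = 4 * k + 1 := ⟨E / 4, by omega⟩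
      obtain ⟨k, rfl⟩ := a1
      obtain ⟨l, rfl⟩ := a2
      have h8 : (m : ℤ) = 8 * (2 * k ^ 2 + k + 2 * l ^ 2 + l) + 2 := by linear_combination -h4
      omega
    rw [this]; rfl
  · rintro ⟨Y, F, E⟩ h
    rw [mem_filter, mem_Z] at h
    obtain ⟨⟨⟨h1, h2, h3, h4, h5⟩, h6⟩, h7⟩ := h
    show (Y, -F, E) ∈ _
    rw [mem_filter, mem_Z]
    have hF : F ^ 2 < E ^ 2 := lt_trans h7 h6
    have a1 := abs_lt.1 (sq_lt_sq.1 h7)
    have h8 : (Y - -F) * (E - -F) < 0 := by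
      have b1 : |F| < |Y| := sq_lt_sq.1 h7
      have b2 : |F| < |E| := sq_lt_sq.1 hF
      have b3 := neg_abs_le F
      have b4 := le_abs_self F
      rcases le_total 0 Y with hY | hY <;> rcases le_total 0 E with hE | hE
      · exfalso
        rw [abs_of_nonneg hY] at b1
        rw [abs_of_nonneg hE] at b2
        have : 0 < (Y - F) * (E - F) := mul_pos (by linarith) (by linarith)
        linarith
      · rw [abs_of_nonneg hY] at b1
        rw [abs_of_nonpos hE] at b2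
        exact mul_neg_of_pos_of_neg (by linarith) (by linarith)
      · rw [abs_of_nonpos hY] at b1
        rw [abs_of_nonneg hE] at b2
        exact mul_neg_of_neg_of_pos (by linarith) (by linarith)
      · exfalso
        rw [abs_of_nonpos hY] at b1
        rw [abs_of_nonpos hE] at b2
        have : 0 < (Y - F) * (E - F) := mul_pos_of_neg_of_neg (by linarith) (by linarith)
        linarith
    refine ⟨⟨⟨h1, h2, by omega, by linear_combination h4, h8⟩, h6⟩, ?_⟩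
    show (-F) ^ 2 < Y ^ 2
    rw [neg_sq]; exact h7
  · rintro ⟨Y, F, E⟩ _
    simp

/-- normalise the sign of an odd number to be `1` modulo `4` -/
def sg (x : ℕ) : ℤ := if x % 4 = 1 then (x : ℤ) else -(x : ℤ)

lemma sg_mod {x : ℕ} (h : x % 2 = 1) : sg x % 4 = 1 := by
  unfold sg; split_ifs <;> omega

lemma sg_sq (x : ℕ) : sg x ^ 2 = (x : ℤ) ^ 2 := by
  unfold sg; split_ifs <;> ring

lemma sg_natAbs (x : ℕ) : (sg x).natAbs = x := by
  unfold sg; split_ifs <;> omega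

lemma odd_sq_mod (k : ℤ) (h : k % 2 = 1) : k ^ 2 % 8 = 1 := by
  obtain ⟨t, rfl⟩ : ∃ t, k = 2 * t + 1 := ⟨k / 2, by omega⟩
  obtain ⟨s, hs⟩ : ∃ s, t * (t + 1) = 2 * s := by
    obtain ⟨s, hs⟩ := Int.even_mul_succ_self t
    exact ⟨s, by linarith⟩
  have : (2 * t + 1) ^ 2 = 8 * s + 1 := by linear_combination 4 * hs
  omega

lemma even_sq_mod (k : ℤ) (h : k % 2 = 0) : k ^ 2 % 4 = 0 := by
  obtain ⟨t, rfl⟩ : ∃ t, k = 2 * t := ⟨k / 2, by omega⟩
  have : (2 * t) ^ 2 = 4 * t ^ 2 := by ring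
  omega

lemma parity_of_eq {m y f e : ℤ} (hm : m % 8 = 6) (h : y ^ 2 + e ^ 2 = m + f ^ 2) :
    y % 2 = 1 ∧ e % 2 = 1 ∧ f % 2 = 0 := by
  rcases Int.emod_two_eq_zero_or_one y with hy | hy <;>
    rcases Int.emod_two_eq_zero_or_one e with he | he <;>
    rcases Int.emod_two_eq_zero_or_one f with hf | hf
  all_goals first
    | exact ⟨hy, he, hf⟩
    | (exfalso
       first
        | (have a1 := even_sq_mod y hy
           have a2 := even_sq_mod e he
           have a3 := even_sq_mod f hf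
           omega)
        | (have a1 := even_sq_mod y hy
           have a2 := even_sq_mod e he
           have a3 := odd_sq_mod f hf
           omega)
        | (have a1 := even_sq_mod y hy
           have a2 := odd_sq_mod e he
           have a3 := even_sq_mod f hf
           omega)
        | (have a1 := even_sq_mod y hy
           have a2 := odd_sq_mod e he
           have a3 := odd_sq_mod f hf
           omega)
        | (have a1 := odd_sq_mod y hy
           have a2 := even_sq_mod e he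
           have a3 := even_sq_mod f hf
           omega)
        | (have a1 := odd_sq_mod y hy
           have a2 := even_sq_mod e he
           have a3 := odd_sq_mod f hf
           omega)
        | (have a1 := odd_sq_mod y hy
           have a2 := odd_sq_mod e he
           have a3 := odd_sq_mod f hf
           omega))

lemma natAbs_sq' (x : ℤ) : ((x.natAbs : ℕ) : ℤ) ^ 2 = x ^ 2 := by
  rw [Int.natCast_natAbs, sq_abs]

/-- The other part of `Z` is in bijection with `VT`. -/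
lemma Zi_card {m : ℕ} (hm : m % 8 = 6) :
    ((Z m).filter (fun t => ¬ t.2.1 ^ 2 < t.1 ^ 2)).card = (VT m).card := by
  refine Finset.card_bij (fun t _ => (t.1.natAbs, t.2.1.natAbs, t.2.2.natAbs)) ?_ ?_ ?_
  · rintro ⟨Y, F, E⟩ h
    rw [mem_filter, mem_Z] at h
    obtain ⟨⟨hP, h6⟩, h7⟩ := h
    have hFE := PZ_lt hP h6
    obtain ⟨h1, h2, h3, h4, h5⟩ := hP
    show (Y.natAbs, F.natAbs, E.natAbs) ∈ VT m
    rw [mem_VT]
    have hYF : Y ^ 2 < F ^ 2 := by
      refine lt_of_le_of_ne (not_lt.1 h7) ?_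
      intro he
      rcases sq_eq_sq_iff_eq_or_eq_neg.1 he with h8 | h8 <;> omega
    refine ⟨by omega, ?_, ?_, ?_⟩
    · exact by rw [← Int.natAbs_lt_iff_sq_lt] at hYF; exact hYF
    · exact by rw [← Int.natAbs_lt_iff_sq_lt] at hFE; exact hFE
    · zify
      rw [sq_abs, sq_abs, sq_abs]
      exact h4
  · rintro ⟨Y, F, E⟩ h ⟨Y', F', E'⟩ h' he
    rw [mem_filter, mem_Z] at h h'
    obtain ⟨⟨hP, h6⟩, h7⟩ := h
    obtain ⟨⟨hP', h6'⟩, h7'⟩ := h'
    have hFE := PZ_lt hP h6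
    obtain ⟨h1, h2, h3, h4, h5⟩ := hP
    obtain ⟨h1', h2', h3', h4', h5'⟩ := hP'
    simp only [Prod.mk.injEq] at he
    obtain ⟨e1, e2, e3⟩ := he
    have hY : Y = Y' := by omega
    have hE : E = E' := by omega
    have hF : F = F' := by
      rcases (by omega : F = F' ∨ F = -F') with h8 | h8
      · exact h8
      · exfalso
        subst hY hE h8
        -- (Y + F')(E + F') < 0 and (Y - F')(E - F') < 0 with |Y| < |F'| < |E|
        have b1 : |Y| ≤ |F'| := by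
          have := not_lt.1 h7'
          exact sq_le_sq.1 this
        have b2 : |F'| < |E| := by
          have : F' ^ 2 < E ^ 2 := by
            have := hFE
            rw [neg_sq] at this
            exact this
          exact sq_lt_sq.1 this
        nlinarith [abs_le.1 b1, abs_nonneg Y]
    rw [hY, hF, hE]
  · rintro ⟨y, f, e⟩ h
    rw [mem_VT] at h
    obtain ⟨h1, h2, h3, h4⟩ := h
    have h4z : (y : ℤ) ^ 2 + (e : ℤ) ^ 2 = m + (f : ℤ) ^ 2 := by exact_mod_cast h4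
    obtain ⟨p1, p2, p3⟩ := parity_of_eq (by omega) h4z
    refine ⟨(sg y, if e % 4 = 1 then (f : ℤ) else -(f : ℤ), sg e), ?_, ?_⟩
    · rw [mem_filter, mem_Z]
      have hFsq : (if e % 4 = 1 then (f : ℤ) else -(f : ℤ)) ^ 2 = (f : ℤ) ^ 2 := by
        split_ifs <;> ring
      have hyf : (y : ℤ) ^ 2 < (f : ℤ) ^ 2 := by
        have : (y : ℤ) < f := by exact_mod_cast h2
        nlinarith
      have hfe : (f : ℤ) ^ 2 < (e : ℤ) ^ 2 := by
        have : (f : ℤ) < e := by exact_mod_cast h3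
        nlinarith
      refine ⟨⟨⟨sg_mod (by omega), sg_mod (by omega), by split_ifs <;> omega, ?_, ?_⟩, ?_⟩, ?_⟩
      · rw [sg_sq, sg_sq]
        show (y : ℤ) ^ 2 + (e : ℤ) ^ 2 = m + (if e % 4 = 1 then (f : ℤ) else -(f : ℤ)) ^ 2
        rw [hFsq]; exact h4z
      · have z1 : (y : ℤ) < f := by exact_mod_cast h2
        have z2 : (f : ℤ) < e := by exact_mod_cast h3
        have z3 : (0 : ℤ) < y := by exact_mod_cast h1
        show (sg y - (if e % 4 = 1 then (f : ℤ) else -(f : ℤ))) *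
          (sg e - (if e % 4 = 1 then (f : ℤ) else -(f : ℤ))) < 0
        unfold sg
        split_ifs
        · exact mul_neg_of_neg_of_pos (by linarith) (by linarith)
        · exact mul_neg_of_pos_of_neg (by linarith) (by linarith)
        · exact mul_neg_of_neg_of_pos (by linarith) (by linarith)
        · exact mul_neg_of_pos_of_neg (by linarith) (by linarith)
      · show sg y ^ 2 < sg e ^ 2
        rw [sg_sq, sg_sq]; exact lt_trans hyf hfe
      · show ¬ (if e % 4 = 1 then (f : ℤ) else -(f : ℤ)) ^ 2 < sg y ^ 2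
        rw [sg_sq, hFsq]; exact not_lt.2 hyf.le
    · show ((sg y).natAbs, (if e % 4 = 1 then (f : ℤ) else -(f : ℤ)).natAbs, (sg e).natAbs) =
        (y, f, e)
      rw [sg_natAbs, sg_natAbs]
      congr 2
      split_ifs <;> omega

end Pool.Agent.Q224.Nu
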