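import Pool.Agent.Q224.Nu.Three

namespace Pool.Agent.Q224.Nu

open Finset

lemma card_divisors_nonsq {u : ℕ} (hu : ∀ r, r * r ≠ u) (h0 : u ≠ 0) :
    u.divisors.card = 2 * (u.divisors.filter (fun y => y * y < u)).card := by
  have h1 : u.divisors.card = (u.divisors.filter (fun y => y * y < u)).card +
      (u.divisors.filter (fun y => ¬ y * y < u)).card :=
    (Finset.card_filter_add_card_filter_not (s := u.divisors) (fun y => y * y < u)).symm
  have h2 : (u.divisors.filter (fun y => ¬ y * y < u)).card =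
      (u.divisors.filter (fun y => y * y < u)).card := by
    refine Finset.card_bij (fun y _ => u / y) ?_ ?_ ?_
    · intro y hy
      rw [mem_filter, Nat.mem_divisors] at hy ⊢
      obtain ⟨⟨⟨z, hz⟩, _⟩, h3⟩ := hy
      have hy0 : 0 < y := by
        rcases Nat.eq_zero_or_pos y with h | h
        · subst h; simp at hz; exact absurd hz h0
        · exact h
      have e : u / y = z := by rw [hz]; exact Nat.mul_div_cancel_left z hy0
      rw [e]
      refine ⟨⟨⟨y, by rw [hz]; ring⟩, h0⟩, ?_⟩
      have h4 : y * y ≠ u := hu y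
      have h5 : u < y * y := by omega
      rw [hz] at h5 ⊢
      have h6 : z < y := Nat.lt_of_mul_lt_mul_left h5
      have hz0 : 0 < z := by
        rcases Nat.eq_zero_or_pos z with h | h
        · subst h; simp at hz; exact absurd hz h0
        · exact h
      exact Nat.mul_lt_mul_of_pos_right h6 hz0
    · intro y hy y' hy' he
      rw [mem_filter, Nat.mem_divisors] at hy hy'
      have a1 := Nat.div_mul_cancel hy.1.1
      have a2 := Nat.div_mul_cancel hy'.1.1
      rw [he] at a1
      have hpos : 0 < u / y' := by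
        rcases Nat.eq_zero_or_pos (u / y') with h | h
        · rw [h] at a2; simp at a2; exact absurd a2.symm h0
        · exact h
      exact Nat.eq_of_mul_eq_mul_left hpos (by rw [a1, a2])
    · intro z hz
      rw [mem_filter, Nat.mem_divisors] at hz
      obtain ⟨⟨⟨y, hy⟩, _⟩, h3⟩ := hz
      have hz0 : 0 < z := by
        rcases Nat.eq_zero_or_pos z with h | h
        · subst h; simp at hy; exact absurd hy h0
        · exact h
      have hy0 : 0 < y := by
        rcases Nat.eq_zero_or_pos y with h | h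
        · subst h; simp at hy; exact absurd hy h0
        · exact h
      refine ⟨y, ?_, ?_⟩
      · rw [mem_filter, Nat.mem_divisors]
        refine ⟨⟨⟨z, by rw [hy]; ring⟩, h0⟩, ?_⟩
        rw [hy] at h3 ⊢
        have h6 : z < y := Nat.lt_of_mul_lt_mul_left h3
        have : z * y < y * y := Nat.mul_lt_mul_of_pos_right h6 hy0
        omega
      · show u / y = z
        rw [hy]; exact Nat.mul_div_cancel z hy0
  omega

lemma nonsq_of_mod {u : ℕ} (hu : u % 4 = 3) : ∀ r, r * r ≠ u := by
  intro r hr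
  rcases Nat.even_or_odd' r with ⟨k, h | h⟩
  · subst h
    have : 2 * k * (2 * k) = 4 * (k * k) := by ring
    omega
  · subst h
    have : (2 * k + 1) * (2 * k + 1) = 4 * (k * k + k) + 1 := by ring
    omega

lemma fix_card {u : ℕ} (hu : u % 4 = 3) :
    ((Z (2 * u)).filter (fun t => t.2.1 = t.1 + t.2.2)).card =
      (u.divisors.filter (fun y => y * y < u)).card := by
  refine Finset.card_bij (fun t _ => t.1.natAbs) ?_ ?_ ?_
  · rintro ⟨Y, F, E⟩ h
    rw [mem_filter, mem_Z] at h
    obtain ⟨⟨⟨h1, h2, h3, h4, h5⟩, h6⟩, h7⟩ := h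
    simp only at h7
    subst h7
    have h8 : Y * E = -(u : ℤ) := by
      push_cast at h4
      linarith [mul_comm Y E, (by ring : (Y + E) ^ 2 = Y ^ 2 + E ^ 2 + 2 * (Y * E))]
    have h9 : Y.natAbs * E.natAbs = u := by
      have := congrArg Int.natAbs h8
      rw [Int.natAbs_mul, Int.natAbs_neg, Int.natAbs_natCast] at this
      exact this
    have h10 : Y.natAbs < E.natAbs := Int.natAbs_lt_iff_sq_lt.2 h6
    show Y.natAbs ∈ _
    rw [mem_filter, Nat.mem_divisors]
    refine ⟨⟨⟨E.natAbs, h9.symm⟩, by omega⟩, ?_⟩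
    calc Y.natAbs * Y.natAbs < Y.natAbs * E.natAbs :=
          Nat.mul_lt_mul_of_pos_left h10 (by omega)
      _ = u := h9
  · rintro ⟨Y, F, E⟩ h ⟨Y', F', E'⟩ h' he
    rw [mem_filter, mem_Z] at h h'
    obtain ⟨⟨⟨h1, h2, h3, h4, h5⟩, h6⟩, h7⟩ := h
    obtain ⟨⟨⟨h1', h2', h3', h4', h5'⟩, h6'⟩, h7'⟩ := h'
    simp only at h7 h7' he
    have hY : Y = Y' := by omega
    subst hY
    subst h7
    subst h7'
    have h8 : Y * E = -(u : ℤ) := by
      push_cast at h4
      linarith [mul_comm Y E, (by ring : (Y + E) ^ 2 = Y ^ 2 + E ^ 2 + 2 * (Y * E))]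
    have h8' : Y * E' = -(u : ℤ) := by
      push_cast at h4'
      linarith [mul_comm Y E', (by ring : (Y + E') ^ 2 = Y ^ 2 + E' ^ 2 + 2 * (Y * E'))]
    have hY0 : Y ≠ 0 := by omega
    have hE : E = E' := mul_left_cancel₀ hY0 (by rw [h8, h8'])
    subst hE
    rfl
  · intro y hy
    rw [mem_filter, Nat.mem_divisors] at hy
    obtain ⟨⟨⟨e, he⟩, _⟩, h3⟩ := hy
    have hye : y < e := by
      rw [he] at h3
      exact Nat.lt_of_mul_lt_mul_left h3
    have hodd : y % 4 = 1 ∧ e % 4 = 3 ∨ y % 4 = 3 ∧ e % 4 = 1 := by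
      have h4 : (y * e) % 4 = 3 := by rw [← he]; exact hu
      rw [Nat.mul_mod] at h4
      have h5 : y % 4 < 4 := Nat.mod_lt _ (by norm_num)
      have h6 : e % 4 < 4 := Nat.mod_lt _ (by norm_num)
      interval_cases (y % 4) <;> interval_cases (e % 4) <;> simp_all
    have hprod : sg y * sg e = -(u : ℤ) := by
      rw [he]; push_cast
      rcases hodd with ⟨a1, a2⟩ | ⟨a1, a2⟩
      · unfold sg; rw [if_pos a1, if_neg (by omega)]; ring
      · unfold sg; rw [if_neg (by omega), if_pos a2]; ring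
    refine ⟨(sg y, sg y + sg e, sg e), ?_, ?_⟩
    · rw [mem_filter, mem_Z]
      have m1 : sg y % 4 = 1 := sg_mod (by omega)
      have m2 : sg e % 4 = 1 := sg_mod (by omega)
      refine ⟨⟨⟨m1, m2, by omega, ?_, ?_⟩, ?_⟩, rfl⟩
      · push_cast
        show sg y ^ 2 + sg e ^ 2 = 2 * (u : ℤ) + (sg y + sg e) ^ 2
        linear_combination (-2 : ℤ) * hprod
      · show (sg y - (sg y + sg e)) * (sg e - (sg y + sg e)) < 0
        have e1 : (sg y - (sg y + sg e)) * (sg e - (sg y + sg e)) = sg y * sg e := by ring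
        rw [e1, hprod]
        have : (0 : ℤ) < u := by
          have : 0 < u := by omega
          exact_mod_cast this
        linarith
      · show sg y ^ 2 < sg e ^ 2
        rw [sg_sq, sg_sq]
        have : (y : ℤ) < e := by exact_mod_cast hye
        nlinarith
    · exact sg_natAbs y

/-- The number of partitions of `2 u` into exactly three part sizes, modulo `2`. -/
theorem nu_three_parity {u : ℕ} (hu : u % 4 = 3) :
    nu 3 (2 * u) % 2 = (u.divisors.filter (fun y => y * y < u)).card % 2 := by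
  have hm : (2 * u) % 8 = 6 := by omega
  rw [nu_three, N3_parity_VT, ← Zi_card hm, ← fix_card hu, ← Z_parity]
  have h1 : (Z (2 * u)).card = ((Z (2 * u)).filter (fun t => t.2.1 ^ 2 < t.1 ^ 2)).card +
      ((Z (2 * u)).filter (fun t => ¬ t.2.1 ^ 2 < t.1 ^ 2)).card :=
    (Finset.card_filter_add_card_filter_not (s := Z (2 * u)) (fun t => t.2.1 ^ 2 < t.1 ^ 2)).symm
  have h2 := Zii_even hm
  omega

/-- `ν₃(2u) ≡ d(u)/2 (mod 2)` for `u ≡ 3 (mod 4)`. -/
theorem nu_three_divisors {u : ℕ} (hu : u % 4 = 3) :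
    nu 3 (2 * u) % 2 = (u.divisors.card / 2) % 2 := by
  rw [nu_three_parity hu, card_divisors_nonsq (nonsq_of_mod hu) (by omega)]
  omega

end Pool.Agent.Q224.Nu
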