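import Pool.Agent.Q224.Nu.Max

namespace Pool.Agent.Q224.Nu

open Finset

lemma card_filter_invol {α : Type*} [DecidableEq α] (s : Finset α) (g : α → α)
    (hg : ∀ x ∈ s, g x ∈ s) (hgg : ∀ x ∈ s, g (g x) = x) (P P' : α → Prop) [DecidablePred P]
    [DecidablePred P'] (h : ∀ x ∈ s, P x ↔ P' (g x)) :
    (s.filter P).card = (s.filter P').card := by
  refine Finset.card_bij (fun x _ => g x) ?_ ?_ ?_
  · intro x hx
    rw [mem_filter] at hx ⊢
    exact ⟨hg x hx.1, (h x hx.1).1 hx.2⟩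
  · intro x hx y hy he
    rw [mem_filter] at hx hy
    have := congrArg g he
    rw [hgg x hx.1, hgg y hy.1] at this
    exact this
  · intro y hy
    rw [mem_filter] at hy
    refine ⟨g y, ?_, hgg y hy.1⟩
    rw [mem_filter]
    refine ⟨hg y hy.1, (h (g y) (hg y hy.1)).2 ?_⟩
    rw [hgg y hy.1]; exact hy.2

/-- `a i + b j = m`. -/
def Q (m : ℕ) : Finset (ℕ × ℕ × ℕ × ℕ) :=
  (Icc 1 m ×ˢ Icc 1 m ×ˢ Icc 1 m ×ˢ Icc 1 m).filter
    (fun t => t.1 * t.2.1 + t.2.2.1 * t.2.2.2 = m)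

lemma mem_Q {m a i b j : ℕ} : (a, i, b, j) ∈ Q m ↔
    1 ≤ a ∧ 1 ≤ i ∧ 1 ≤ b ∧ 1 ≤ j ∧ a * i + b * j = m := by
  simp only [Q, mem_filter, mem_product, mem_Icc]
  constructor
  · rintro ⟨⟨⟨h1, h2⟩, ⟨h3, h4⟩, ⟨h5, h6⟩, h7, h8⟩, h9⟩
    exact ⟨h1, h3, h5, h7, h9⟩
  · rintro ⟨h1, h2, h3, h4, h5⟩
    have e1 : a ≤ a * i := Nat.le_mul_of_pos_right _ h2
    have e2 : i ≤ a * i := Nat.le_mul_of_pos_left _ h1
    have e3 : b ≤ b * j := Nat.le_mul_of_pos_right _ h4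
    have e4 : j ≤ b * j := Nat.le_mul_of_pos_left _ h3
    exact ⟨⟨⟨by omega, by omega⟩, ⟨by omega, by omega⟩, ⟨by omega, by omega⟩, by omega, by omega⟩,
      h5⟩

def s1 (t : ℕ × ℕ × ℕ × ℕ) : ℕ × ℕ × ℕ × ℕ := (t.2.1, t.1, t.2.2.1, t.2.2.2)
def s2 (t : ℕ × ℕ × ℕ × ℕ) : ℕ × ℕ × ℕ × ℕ := (t.1, t.2.1, t.2.2.2, t.2.2.1)
def s3 (t : ℕ × ℕ × ℕ × ℕ) : ℕ × ℕ × ℕ × ℕ := (t.2.2.1, t.2.2.2, t.1, t.2.1)

lemma s1_mem {m : ℕ} : ∀ t ∈ Q m, s1 t ∈ Q m := by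
  rintro ⟨a, i, b, j⟩ h
  rw [mem_Q] at h
  show (i, a, b, j) ∈ Q m
  rw [mem_Q]
  exact ⟨h.2.1, h.1, h.2.2.1, h.2.2.2.1, by rw [mul_comm i a]; exact h.2.2.2.2⟩

lemma s2_mem {m : ℕ} : ∀ t ∈ Q m, s2 t ∈ Q m := by
  rintro ⟨a, i, b, j⟩ h
  rw [mem_Q] at h
  show (a, i, j, b) ∈ Q m
  rw [mem_Q]
  exact ⟨h.1, h.2.1, h.2.2.2.1, h.2.2.1, by rw [mul_comm j b]; exact h.2.2.2.2⟩

lemma s3_mem {m : ℕ} : ∀ t ∈ Q m, s3 t ∈ Q m := by
  rintro ⟨a, i, b, j⟩ h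
  rw [mem_Q] at h
  show (b, j, a, i) ∈ Q m
  rw [mem_Q]
  exact ⟨h.2.2.1, h.2.2.2.1, h.1, h.2.1, by rw [add_comm]; exact h.2.2.2.2⟩

lemma split_lt {α : Type*} [DecidableEq α] (s : Finset α) (f g : α → ℕ) :
    s.card = (s.filter (fun t => f t < g t)).card + (s.filter (fun t => g t < f t)).card +
      (s.filter (fun t => f t = g t)).card := by
  have h1 := Finset.card_filter_add_card_filter_not (s := s) (fun t => f t < g t)
  have h2 := Finset.card_filter_add_card_filter_not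
    (s := s.filter (fun t => ¬ f t < g t)) (fun t => g t < f t)
  have h3 : (s.filter (fun t => ¬ f t < g t)).filter (fun t => g t < f t) =
      s.filter (fun t => g t < f t) := by
    ext t; simp only [mem_filter]; constructor
    · rintro ⟨⟨a, b⟩, c⟩; exact ⟨a, c⟩
    · rintro ⟨a, b⟩; exact ⟨⟨a, by omega⟩, b⟩
  have h4 : (s.filter (fun t => ¬ f t < g t)).filter (fun t => ¬ g t < f t) =
      s.filter (fun t => f t = g t) := by
    ext t; simp only [mem_filter]; constructor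
    · rintro ⟨⟨a, b⟩, c⟩; exact ⟨a, by omega⟩
    · rintro ⟨a, b⟩; exact ⟨⟨a, by omega⟩, by omega⟩
  rw [h3, h4] at h2
  omega

/-- `|Q| = 2 |N₂| + #{a = b}`. -/
lemma card_Q_N2 (m : ℕ) : (Q m).card = 2 * (N2 m).card +
    ((Q m).filter (fun t => t.1 = t.2.2.1)).card := by
  have h1 := split_lt (Q m) (fun t => t.1) (fun t => t.2.2.1)
  have h2 : ((Q m).filter (fun t => t.2.2.1 < t.1)).card = (N2 m).card := by
    congr 1
    ext ⟨a, i, b, j⟩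
    rw [mem_filter, mem_Q, mem_N2]
    constructor
    · rintro ⟨⟨g1, g2, g3, g4, g5⟩, g6⟩; exact ⟨g3, g6, g2, g4, g5⟩
    · rintro ⟨g1, g2, g3, g4, g5⟩
      exact ⟨⟨by omega, g3, g1, g4, g5⟩, g2⟩
  have h3 : ((Q m).filter (fun t => t.1 < t.2.2.1)).card =
      ((Q m).filter (fun t => t.2.2.1 < t.1)).card :=
    card_filter_invol (Q m) s3 s3_mem (fun _ _ => rfl) _ _ (fun _ _ => Iff.rfl)
  omega

/-- `#{a = b} + d(m) = σ(m)`. -/
lemma card_Q_eq {m : ℕ} (hm : m ≠ 0) :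
    ((Q m).filter (fun t => t.1 = t.2.2.1)).card + m.divisors.card = ∑ d ∈ m.divisors, d := by
  have h1 : ((Q m).filter (fun t => t.1 = t.2.2.1)).card =
      (m.divisors.sigma (fun a => Icc 1 (m / a - 1))).card := by
    refine Finset.card_bij (fun t _ => (⟨t.1, t.2.1⟩ : Σ _ : ℕ, ℕ)) ?_ ?_ ?_
    · rintro ⟨a, i, b, j⟩ h
      rw [mem_filter, mem_Q] at h
      obtain ⟨⟨g1, g2, g3, g4, g5⟩, g6⟩ := h
      simp only at g6
      subst g6
      have e1 : a * (i + j) = m := by rw [← g5]; ring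
      have e2 : m / a = i + j := by rw [← e1]; exact Nat.mul_div_cancel_left _ (by omega)
      rw [Finset.mem_sigma, Nat.mem_divisors, mem_Icc]
      refine ⟨⟨⟨i + j, e1.symm⟩, hm⟩, g2, ?_⟩
      show i ≤ m / a - 1
      omega
    · rintro ⟨a, i, b, j⟩ h ⟨a', i', b', j'⟩ h' he
      rw [mem_filter, mem_Q] at h h'
      obtain ⟨⟨g1, g2, g3, g4, g5⟩, g6⟩ := h
      obtain ⟨⟨k1, k2, k3, k4, k5⟩, k6⟩ := h'
      simp only [Sigma.mk.injEq, heq_eq_eq] at he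
      simp only at g6 k6
      obtain ⟨e1, e2⟩ := he
      subst e1 e2 g6 k6
      have : a * j = a * j' := by omega
      have hj : j = j' := Nat.eq_of_mul_eq_mul_left (by omega) this
      rw [hj]
    · rintro ⟨a, i⟩ h
      rw [Finset.mem_sigma, Nat.mem_divisors, mem_Icc] at h
      obtain ⟨⟨⟨c, hc⟩, _⟩, h2, h3⟩ := h
      simp only at h2 h3 hc
      have ha : 0 < a := by
        rcases Nat.eq_zero_or_pos a with h | h
        · subst h; simp at hc; exact absurd hc hm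
        · exact h
      have e2 : m / a = c := by rw [hc]; exact Nat.mul_div_cancel_left _ ha
      refine ⟨(a, i, a, c - i), ?_, rfl⟩
      rw [mem_filter, mem_Q]
      refine ⟨⟨ha, h2, ha, by omega, ?_⟩, rfl⟩
      rw [← mul_add, hc]
      congr 1
      omega
  rw [h1, Finset.card_sigma]
  have h2 : ∑ a ∈ m.divisors, (Icc 1 (m / a - 1)).card + m.divisors.card =
      ∑ a ∈ m.divisors, m / a := by
    rw [Finset.card_eq_sum_ones, ← Finset.sum_add_distrib]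
    apply Finset.sum_congr rfl
    intro a ha
    have : 0 < m / a := Nat.div_pos (Nat.divisor_le ha) (Nat.pos_of_mem_divisors ha)
    rw [Nat.card_Icc]
    omega
  rw [h2]
  exact Nat.sum_div_divisors m (fun d => d)

/-- solutions of `x² + y z = m` with `y < z` -/
def Hs (m : ℕ) : Finset (ℕ × ℕ × ℕ) :=
  (Icc 1 m ×ˢ Icc 1 m ×ˢ Icc 1 m).filter (fun t => t.1 ^ 2 + t.2.1 * t.2.2 = m ∧ t.2.1 < t.2.2)

lemma mem_Hs {m x y z : ℕ} : (x, y, z) ∈ Hs m ↔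
    1 ≤ x ∧ 1 ≤ y ∧ y < z ∧ x ^ 2 + y * z = m := by
  simp only [Hs, mem_filter, mem_product, mem_Icc]
  constructor
  · rintro ⟨⟨⟨h1, h2⟩, ⟨h3, h4⟩, h5, h6⟩, h7, h8⟩
    exact ⟨h1, h3, h8, h7⟩
  · rintro ⟨h1, h2, h3, h4⟩
    have e1 : x ≤ x ^ 2 := by nlinarith
    have e3 : y ≤ y * z := Nat.le_mul_of_pos_right _ (by omega)
    have e4 : z ≤ y * z := Nat.le_mul_of_pos_left _ (by omega)
    exact ⟨⟨⟨by omega, by omega⟩, ⟨by omega, by omega⟩, by omega, by omega⟩, h4, h3⟩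

lemma not_two_sq {m x y : ℕ} (hm : m % 8 = 6) : x ^ 2 + y ^ 2 ≠ m := by
  intro h
  have h1 : (x : ℤ) ^ 2 + (y : ℤ) ^ 2 = m + 0 ^ 2 := by
    have : (x : ℤ) ^ 2 + (y : ℤ) ^ 2 = m := by exact_mod_cast h
    linarith
  obtain ⟨a1, a2, a3⟩ := parity_of_eq (by omega) h1
  have b1 := odd_sq_mod _ a1
  have b2 := odd_sq_mod _ a2
  omega

lemma card_Q_diag {m : ℕ} (hm : m % 8 = 6) :
    ((Q m).filter (fun t => t.1 = t.2.1)).card = 2 * (Hs m).card := by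
  have h1 := split_lt ((Q m).filter (fun t => t.1 = t.2.1)) (fun t => t.2.2.1) (fun t => t.2.2.2)
  have h2 : (((Q m).filter (fun t => t.1 = t.2.1)).filter (fun t => t.2.2.1 = t.2.2.2)) = ∅ := by
    rw [Finset.filter_eq_empty_iff]
    rintro ⟨a, i, b, j⟩ h he
    rw [mem_filter, mem_Q] at h
    simp only at h he
    obtain ⟨⟨_, _, _, _, g5⟩, g6⟩ := h
    subst g6 he
    exact not_two_sq (x := a) (y := b) hm (by rw [← g5]; ring)
  have hs2 : ∀ t ∈ (Q m).filter (fun t => t.1 = t.2.1),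
      s2 t ∈ (Q m).filter (fun t => t.1 = t.2.1) := by
    intro t ht
    rw [mem_filter] at ht ⊢
    exact ⟨s2_mem t ht.1, ht.2⟩
  have h3 : (((Q m).filter (fun t => t.1 = t.2.1)).filter (fun t => t.2.2.1 < t.2.2.2)).card =
      (((Q m).filter (fun t => t.1 = t.2.1)).filter (fun t => t.2.2.2 < t.2.2.1)).card :=
    card_filter_invol _ s2 hs2 (fun _ _ => rfl) _ _ (fun _ _ => Iff.rfl)
  have h4 : (((Q m).filter (fun t => t.1 = t.2.1)).filter (fun t => t.2.2.1 < t.2.2.2)).card =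
      (Hs m).card := by
    refine Finset.card_bij (fun t _ => (t.1, t.2.2.1, t.2.2.2)) ?_ ?_ ?_
    · rintro ⟨a, i, b, j⟩ h
      rw [mem_filter, mem_filter, mem_Q] at h
      simp only at h
      obtain ⟨⟨⟨g1, g2, g3, g4, g5⟩, g6⟩, g7⟩ := h
      subst g6
      show (a, b, j) ∈ Hs m
      rw [mem_Hs]
      exact ⟨g1, g3, g7, by rw [← g5]; ring⟩
    · rintro ⟨a, i, b, j⟩ h ⟨a', i', b', j'⟩ h' he
      rw [mem_filter, mem_filter, mem_Q] at h h'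
      simp only [Prod.mk.injEq] at h h' he ⊢
      omega
    · rintro ⟨x, y, z⟩ h
      rw [mem_Hs] at h
      refine ⟨(x, x, y, z), ?_, rfl⟩
      rw [mem_filter, mem_filter, mem_Q]
      exact ⟨⟨⟨h.1, h.1, h.2.1, by omega, by rw [← h.2.2.2]; ring⟩, rfl⟩, h.2.2.1⟩
  rw [h2, Finset.card_empty] at h1
  omega

end Pool.Agent.Q224.Nu
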