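import Pool.Agent.Q224.Nu.Two

namespace Pool.Agent.Q224.Nu

open Finset

lemma card_Q_mid {u : ℕ} (hu : u ≠ 0) :
    ((Q (2 * u)).filter (fun t => t.1 * t.2.1 = t.2.2.1 * t.2.2.2)).card =
      u.divisors.card * u.divisors.card := by
  rw [← Finset.card_product]
  refine Finset.card_bij (fun t _ => (t.1, t.2.2.1)) ?_ ?_ ?_
  · rintro ⟨a, i, b, j⟩ h
    rw [mem_filter, mem_Q] at h
    simp only at h
    obtain ⟨⟨g1, g2, g3, g4, g5⟩, g6⟩ := h
    show (a, b) ∈ _
    rw [mem_product, Nat.mem_divisors, Nat.mem_divisors]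
    have q1 : u = a * i := by omega
    have q2 : u = b * j := by omega
    exact ⟨⟨⟨i, q1⟩, hu⟩, ⟨⟨j, q2⟩, hu⟩⟩
  · rintro ⟨a, i, b, j⟩ h ⟨a', i', b', j'⟩ h' he
    rw [mem_filter, mem_Q] at h h'
    simp only at h h'
    obtain ⟨⟨g1, g2, g3, g4, g5⟩, g6⟩ := h
    obtain ⟨⟨k1, k2, k3, k4, k5⟩, k6⟩ := h'
    simp only [Prod.mk.injEq] at he
    obtain ⟨e1, e2⟩ := he
    subst e1 e2
    have hi : i = i' := Nat.eq_of_mul_eq_mul_left (show 0 < a by omega) (by omega)
    have hj : j = j' := Nat.eq_of_mul_eq_mul_left (show 0 < b by omega) (by omega)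
    rw [hi, hj]
  · rintro ⟨a, b⟩ h
    rw [mem_product, Nat.mem_divisors, Nat.mem_divisors] at h
    obtain ⟨⟨⟨i, hi⟩, _⟩, ⟨⟨j, hj⟩, _⟩⟩ := h
    simp only at hi hj
    refine ⟨(a, i, b, j), ?_, rfl⟩
    rw [mem_filter, mem_Q]
    have ha : 1 ≤ a := by
      rcases Nat.eq_zero_or_pos a with h | h
      · subst h; simp at hi; exact absurd hi hu
      · exact h
    have hi0 : 1 ≤ i := by
      rcases Nat.eq_zero_or_pos i with h | h
      · subst h; simp at hi; exact absurd hi hu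
      · exact h
    have hb : 1 ≤ b := by
      rcases Nat.eq_zero_or_pos b with h | h
      · subst h; simp at hj; exact absurd hj hu
      · exact h
    have hj0 : 1 ≤ j := by
      rcases Nat.eq_zero_or_pos j with h | h
      · subst h; simp at hj; exact absurd hj hu
      · exact h
    refine ⟨⟨ha, hi0, hb, hj0, ?_⟩, ?_⟩
    · omega
    · show a * i = b * j
      omega

lemma card_Q_eight {u : ℕ} (hu : u % 4 = 3) :
    ∃ X, (Q (2 * u)).card = 8 * X + 4 * (Hs (2 * u)).card +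
      u.divisors.card * u.divisors.card := by
  have hm : (2 * u) % 8 = 6 := by omega
  have hdiag := card_Q_diag hm
  have hmid := card_Q_mid (u := u) (by omega)
  -- level 1
  have h1 := split_lt (Q (2 * u)) (fun t => t.1 * t.2.1) (fun t => t.2.2.1 * t.2.2.2)
  have h2 : ((Q (2 * u)).filter (fun t => t.2.2.1 * t.2.2.2 < t.1 * t.2.1)).card =
      ((Q (2 * u)).filter (fun t => t.1 * t.2.1 < t.2.2.1 * t.2.2.2)).card :=
    card_filter_invol _ s3 s3_mem (fun _ _ => rfl) _ _ (fun _ _ => Iff.rfl)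
  set L := (Q (2 * u)).filter (fun t => t.1 * t.2.1 < t.2.2.1 * t.2.2.2) with hL
  -- level 2
  have h3 := split_lt L (fun t => t.1) (fun t => t.2.1)
  have l1 : ∀ t ∈ L, s1 t ∈ L := by
    rintro ⟨a, i, b, j⟩ ht
    rw [hL, mem_filter] at ht ⊢
    refine ⟨s1_mem _ ht.1, ?_⟩
    show i * a < b * j
    rw [mul_comm i a]; exact ht.2
  have l2 : ∀ t ∈ L, s2 t ∈ L := by
    rintro ⟨a, i, b, j⟩ ht
    rw [hL, mem_filter] at ht ⊢
    refine ⟨s2_mem _ ht.1, ?_⟩
    show a * i < j * b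
    rw [mul_comm j b]; exact ht.2
  have h4 : (L.filter (fun t => t.2.1 < t.1)).card = (L.filter (fun t => t.1 < t.2.1)).card :=
    card_filter_invol _ s1 l1 (fun _ _ => rfl) _ _ (fun _ _ => Iff.rfl)
  -- level 3
  have h5 := split_lt (L.filter (fun t => t.1 < t.2.1)) (fun t => t.2.2.1) (fun t => t.2.2.2)
  have l3 : ∀ t ∈ L.filter (fun t => t.1 < t.2.1), s2 t ∈ L.filter (fun t => t.1 < t.2.1) := by
    intro t ht
    rw [mem_filter] at ht ⊢
    exact ⟨l2 t ht.1, ht.2⟩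
  have h6 : ((L.filter (fun t => t.1 < t.2.1)).filter (fun t => t.2.2.2 < t.2.2.1)).card =
      ((L.filter (fun t => t.1 < t.2.1)).filter (fun t => t.2.2.1 < t.2.2.2)).card :=
    card_filter_invol _ s2 l3 (fun _ _ => rfl) _ _ (fun _ _ => Iff.rfl)
  -- b = j
  have h7 := split_lt (L.filter (fun t => t.2.2.1 = t.2.2.2)) (fun t => t.1) (fun t => t.2.1)
  have l4 : ∀ t ∈ L.filter (fun t => t.2.2.1 = t.2.2.2),
      s1 t ∈ L.filter (fun t => t.2.2.1 = t.2.2.2) := by
    intro t ht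
    rw [mem_filter] at ht ⊢
    exact ⟨l1 t ht.1, ht.2⟩
  have h8 : ((L.filter (fun t => t.2.2.1 = t.2.2.2)).filter (fun t => t.2.1 < t.1)).card =
      ((L.filter (fun t => t.2.2.1 = t.2.2.2)).filter (fun t => t.1 < t.2.1)).card :=
    card_filter_invol _ s1 l4 (fun _ _ => rfl) _ _ (fun _ _ => Iff.rfl)
  have h9 : ((L.filter (fun t => t.2.2.1 = t.2.2.2)).filter (fun t => t.1 = t.2.1)) = ∅ := by
    rw [Finset.filter_eq_empty_iff]
    rintro ⟨a, i, b, j⟩ h he
    rw [mem_filter, hL, mem_filter, mem_Q] at h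
    simp only at h he
    obtain ⟨⟨⟨_, _, _, _, g5⟩, _⟩, g6⟩ := h
    subst g6 he
    exact not_two_sq (x := a) (y := b) hm (by rw [← g5]; ring)
  have h10 : ((L.filter (fun t => t.1 < t.2.1)).filter (fun t => t.2.2.1 = t.2.2.2)).card =
      ((L.filter (fun t => t.2.2.1 = t.2.2.2)).filter (fun t => t.1 < t.2.1)).card := by
    rw [Finset.filter_comm]
  -- the diagonal
  have h11 := split_lt ((Q (2 * u)).filter (fun t => t.1 = t.2.1)) (fun t => t.1 * t.2.1)
    (fun t => t.2.2.1 * t.2.2.2)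
  have h12 : (((Q (2 * u)).filter (fun t => t.1 = t.2.1)).filter
      (fun t => t.1 * t.2.1 = t.2.2.1 * t.2.2.2)) = ∅ := by
    rw [Finset.filter_eq_empty_iff]
    rintro ⟨a, i, b, j⟩ h he
    rw [mem_filter, mem_Q] at h
    simp only at h he
    obtain ⟨⟨_, _, _, _, g5⟩, g6⟩ := h
    subst g6
    exact nonsq_of_mod hu a (by omega)
  have h13 : (((Q (2 * u)).filter (fun t => t.1 = t.2.1)).filter
      (fun t => t.1 * t.2.1 < t.2.2.1 * t.2.2.2)).card = (L.filter (fun t => t.1 = t.2.1)).card := by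
    rw [hL, Finset.filter_comm]
  have h14 : (((Q (2 * u)).filter (fun t => t.1 = t.2.1)).filter
      (fun t => t.2.2.1 * t.2.2.2 < t.1 * t.2.1)).card =
      (L.filter (fun t => t.2.2.1 = t.2.2.2)).card := by
    rw [hL, Finset.filter_filter, Finset.filter_filter]
    exact card_filter_invol _ s3 s3_mem (fun _ _ => rfl) _ _ (fun t _ =>
      ⟨fun h => ⟨h.2, h.1⟩, fun h => ⟨h.2, h.1⟩⟩)
  rw [h12, Finset.card_empty] at h11
  rw [h9, Finset.card_empty] at h7
  refine ⟨((L.filter (fun t => t.1 < t.2.1)).filter (fun t => t.2.2.1 < t.2.2.2)).card, ?_⟩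
  rw [hdiag] at h11
  omega

end Pool.Agent.Q224.Nu
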