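import Pool.Agent.Q224.Nu.TwoB

namespace Pool.Agent.Q224.Nu

open Finset

/-- solutions of `x² + p² + 4 q r = m` -/
def G (m : ℕ) : Finset (ℕ × ℕ × ℕ × ℕ) :=
  (Icc 1 m ×ˢ Icc 1 m ×ˢ Icc 1 m ×ˢ Icc 1 m).filter
    (fun t => t.1 ^ 2 + t.2.1 ^ 2 + 4 * (t.2.2.1 * t.2.2.2) = m)

lemma mem_G {m x p q r : ℕ} : (x, p, q, r) ∈ G m ↔
    1 ≤ x ∧ 1 ≤ p ∧ 1 ≤ q ∧ 1 ≤ r ∧ x ^ 2 + p ^ 2 + 4 * (q * r) = m := by
  simp only [G, mem_filter, mem_product, mem_Icc]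
  constructor
  · rintro ⟨⟨⟨h1, h2⟩, ⟨h3, h4⟩, ⟨h5, h6⟩, h7, h8⟩, h9⟩
    exact ⟨h1, h3, h5, h7, h9⟩
  · rintro ⟨h1, h2, h3, h4, h5⟩
    have e1 : x ≤ x ^ 2 := by nlinarith
    have e2 : p ≤ p ^ 2 := by nlinarith
    have e3 : q ≤ q * r := Nat.le_mul_of_pos_right _ h4
    have e4 : r ≤ q * r := Nat.le_mul_of_pos_left _ h3
    exact ⟨⟨⟨by omega, by omega⟩, ⟨by omega, by omega⟩, ⟨by omega, by omega⟩, by omega, by omega⟩,
      h5⟩

lemma two_sq_mod {x p k : ℕ} (h : (x ^ 2 + p ^ 2 + 4 * k) % 8 = 6) : x % 2 = 1 ∧ p % 2 = 1 := by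
  obtain ⟨a, ha⟩ : ∃ a, x = 2 * a ∨ x = 2 * a + 1 := ⟨x / 2, by omega⟩
  obtain ⟨b, hb⟩ : ∃ b, p = 2 * b ∨ p = 2 * b + 1 := ⟨p / 2, by omega⟩
  rcases ha with ha | ha <;> rcases hb with hb | hb
  · exfalso
    subst ha hb
    have : (2 * a) ^ 2 + (2 * b) ^ 2 + 4 * k = 4 * (a ^ 2 + b ^ 2 + k) := by ring
    omega
  · exfalso
    subst ha hb
    have : (2 * a) ^ 2 + (2 * b + 1) ^ 2 + 4 * k = 4 * (a ^ 2 + b ^ 2 + b + k) + 1 := by ring
    omega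
  · exfalso
    subst ha hb
    have : (2 * a + 1) ^ 2 + (2 * b) ^ 2 + 4 * k = 4 * (a ^ 2 + a + b ^ 2 + k) + 1 := by ring
    omega
  · omega

/-- Zagier's involution -/
def zag (t : ℕ × ℕ × ℕ × ℕ) : ℕ × ℕ × ℕ × ℕ :=
  if t.2.1 + t.2.2.2 < t.2.2.1 then
    (t.1, t.2.1 + 2 * t.2.2.2, t.2.2.2, t.2.2.1 - t.2.1 - t.2.2.2)
  else if t.2.1 < 2 * t.2.2.1 then
    (t.1, 2 * t.2.2.1 - t.2.1, t.2.2.1, t.2.1 + t.2.2.2 - t.2.2.1)
  else (t.1, t.2.1 - 2 * t.2.2.1, t.2.1 + t.2.2.2 - t.2.2.1, t.2.2.1)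

lemma G_bdry {m x p q r : ℕ} (hm : m % 8 = 6) (h : (x, p, q, r) ∈ G m) :
    p + r ≠ q ∧ p ≠ 2 * q := by
  rw [mem_G] at h
  obtain ⟨h1, h2, h3, h4, h5⟩ := h
  refine ⟨?_, ?_⟩
  · intro he
    subst he
    exact not_two_sq (x := x) (y := p + 2 * r) hm (by rw [← h5]; ring)
  · have := two_sq_mod (x := x) (p := p) (k := q * r) (by rw [h5]; exact hm)
    omega

lemma zag_mem {m : ℕ} (hm : m % 8 = 6) : ∀ t ∈ G m, zag t ∈ G m := by
  rintro ⟨x, p, q, r⟩ h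
  obtain ⟨b1, b2⟩ := G_bdry hm h
  rw [mem_G] at h
  obtain ⟨h1, h2, h3, h4, h5⟩ := h
  unfold zag
  simp only
  split_ifs with c1 c2
  · rw [mem_G]
    obtain ⟨d, rfl⟩ : ∃ d, q = p + r + 1 + d := ⟨q - p - r - 1, by omega⟩
    have e : p + r + 1 + d - p - r = 1 + d := by omega
    rw [e]
    refine ⟨h1, by omega, h4, by omega, ?_⟩
    rw [← h5]; ring
  · rw [mem_G]
    obtain ⟨P', hP⟩ : ∃ P', P' + p = 2 * q := ⟨2 * q - p, by omega⟩
    obtain ⟨R', hR⟩ : ∃ R', R' + q = p + r := ⟨p + r - q, by omega⟩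
    have e1 : 2 * q - p = P' := by omega
    have e2 : p + r - q = R' := by omega
    rw [e1, e2]
    refine ⟨h1, by omega, h3, by omega, ?_⟩
    zify at h5 hP hR ⊢
    linear_combination h5 + ((P' : ℤ) - p + 2 * q) * hP + 4 * q * hR
  · rw [mem_G]
    obtain ⟨d, rfl⟩ : ∃ d, p = 2 * q + 1 + d := ⟨p - 2 * q - 1, by omega⟩
    have e1 : 2 * q + 1 + d - 2 * q = 1 + d := by omega
    have e2 : 2 * q + 1 + d + r - q = q + 1 + d + r := by omega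
    rw [e1, e2]
    refine ⟨h1, by omega, by omega, h3, ?_⟩
    rw [← h5]; ring

lemma zag_zag {m : ℕ} (hm : m % 8 = 6) : ∀ t ∈ G m, zag (zag t) = t := by
  rintro ⟨x, p, q, r⟩ h
  obtain ⟨b1, b2⟩ := G_bdry hm h
  rw [mem_G] at h
  obtain ⟨h1, h2, h3, h4, h5⟩ := h
  unfold zag
  simp only
  split_ifs with c1 c2 c3 c4 c5 c6 c7 c8
  all_goals simp only at *
  all_goals first
    | (exfalso; omega)
    | (simp only [Prod.mk.injEq, true_and]; omega)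
    | (simp only [Prod.mk.injEq, true_and, and_true]; omega)

lemma zag_fix {m : ℕ} (hm : m % 8 = 6) {x p q r : ℕ} (h : (x, p, q, r) ∈ G m) :
    zag (x, p, q, r) = (x, p, q, r) ↔ p = q := by
  obtain ⟨b1, b2⟩ := G_bdry hm h
  rw [mem_G] at h
  obtain ⟨h1, h2, h3, h4, h5⟩ := h
  unfold zag
  simp only
  split_ifs with c1 c2
  all_goals simp only [Prod.mk.injEq, true_and]
  all_goals omega

lemma G_parity {m : ℕ} (hm : m % 8 = 6) :
    (G m).card % 2 = ((G m).filter (fun t => t.2.1 = t.2.2.1)).card % 2 := by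
  rw [parity_invol (G m) zag (zag_mem hm) (zag_zag hm)]
  congr 2
  apply Finset.filter_congr
  rintro ⟨x, p, q, r⟩ h
  exact zag_fix hm h

lemma G_parity' (m : ℕ) :
    (G m).card % 2 = ((G m).filter (fun t => t.2.2.1 = t.2.2.2 ∧ t.1 = t.2.1)).card % 2 := by
  rw [parity_invol (G m) (fun t => (t.1, t.2.1, t.2.2.2, t.2.2.1))]
  · have h1 : (G m).filter (fun t => (t.1, t.2.1, t.2.2.2, t.2.2.1) = t) =
        (G m).filter (fun t => t.2.2.1 = t.2.2.2) := by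
      apply Finset.filter_congr
      rintro ⟨x, p, q, r⟩ _
      simp only [Prod.mk.injEq, true_and]
      exact ⟨fun h => h.1.symm, fun h => ⟨h.symm, h⟩⟩
    rw [h1, parity_invol ((G m).filter (fun t => t.2.2.1 = t.2.2.2))
      (fun t => (t.2.1, t.1, t.2.2.1, t.2.2.2))]
    · rw [Finset.filter_filter]
      congr 2
      apply Finset.filter_congr
      rintro ⟨x, p, q, r⟩ _
      simp only [Prod.mk.injEq, and_true]
      exact ⟨fun h => ⟨h.1, h.2.2⟩, fun h => ⟨h.1, h.2.symm, h.2⟩⟩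
    · rintro ⟨x, p, q, r⟩ h
      rw [mem_filter, mem_G] at h
      show (p, x, q, r) ∈ _
      rw [mem_filter, mem_G]
      obtain ⟨⟨h1, h2, h3, h4, h5⟩, h6⟩ := h
      exact ⟨⟨h2, h1, h3, h4, by rw [← h5]; ring⟩, h6⟩
    · intro t _; rfl
  · rintro ⟨x, p, q, r⟩ h
    rw [mem_G] at h
    show (x, p, r, q) ∈ _
    rw [mem_G]
    obtain ⟨h1, h2, h3, h4, h5⟩ := h
    exact ⟨h1, h2, h4, h3, by rw [← h5]; ring⟩
  · intro t _; rfl

lemma Hs_odd {m : ℕ} (hm : m % 8 = 6) :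
    ((Hs m).filter (fun t => t.1 % 2 = 1)).card =
      ((G m).filter (fun t => t.2.1 = t.2.2.1)).card := by
  symm
  refine Finset.card_bij (fun t _ => (t.1, t.2.1, t.2.1 + 4 * t.2.2.2)) ?_ ?_ ?_
  · rintro ⟨x, p, q, r⟩ h
    rw [mem_filter, mem_G] at h
    obtain ⟨⟨h1, h2, h3, h4, h5⟩, h6⟩ := h
    simp only at h6
    subst h6
    show (x, p, p + 4 * r) ∈ _
    rw [mem_filter, mem_Hs]
    have := two_sq_mod (x := x) (p := p) (k := p * r) (by rw [h5]; exact hm)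
    exact ⟨⟨h1, h2, by omega, by rw [← h5]; ring⟩, this.1⟩
  · rintro ⟨x, p, q, r⟩ h ⟨x', p', q', r'⟩ h' he
    rw [mem_filter, mem_G] at h h'
    simp only [Prod.mk.injEq] at h h' he ⊢
    omega
  · rintro ⟨x, y, z⟩ h
    rw [mem_filter, mem_Hs] at h
    obtain ⟨⟨h1, h2, h3, h4⟩, h5⟩ := h
    simp only at h5
    have hyz : (y * z) % 4 = 1 := by
      obtain ⟨a, rfl⟩ : ∃ a, x = 2 * a + 1 := ⟨x / 2, by omega⟩
      have : (2 * a + 1) ^ 2 = 4 * (a ^ 2 + a) + 1 := by ring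
      omega
    have hmod : y % 4 = z % 4 := by
      rw [Nat.mul_mod] at hyz
      have h5 : y % 4 < 4 := Nat.mod_lt _ (by norm_num)
      have h6 : z % 4 < 4 := Nat.mod_lt _ (by norm_num)
      interval_cases (y % 4) <;> interval_cases (z % 4) <;> simp_all
    obtain ⟨r, hr⟩ : ∃ r, z = y + 4 * r := ⟨(z - y) / 4, by omega⟩
    subst hr
    refine ⟨(x, y, y, r), ?_, rfl⟩
    rw [mem_filter, mem_G]
    exact ⟨⟨h1, h2, h2, by omega, by rw [← h4]; ring⟩, rfl⟩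

/-- solutions of `2 q² + s t = u` -/
def Cs (u : ℕ) : Finset (ℕ × ℕ × ℕ) :=
  (Icc 1 u ×ˢ Icc 1 u ×ˢ Icc 1 u).filter (fun t => 2 * t.1 ^ 2 + t.2.1 * t.2.2 = u)

lemma mem_Cs {u q s t : ℕ} : (q, s, t) ∈ Cs u ↔
    1 ≤ q ∧ 1 ≤ s ∧ 1 ≤ t ∧ 2 * q ^ 2 + s * t = u := by
  simp only [Cs, mem_filter, mem_product, mem_Icc]
  constructor
  · rintro ⟨⟨⟨h1, h2⟩, ⟨h3, h4⟩, h5, h6⟩, h7⟩
    exact ⟨h1, h3, h5, h7⟩
  · rintro ⟨h1, h2, h3, h4⟩
    have e1 : q ≤ q ^ 2 := by nlinarith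
    have e3 : s ≤ s * t := Nat.le_mul_of_pos_right _ (by omega)
    have e4 : t ≤ s * t := Nat.le_mul_of_pos_left _ (by omega)
    exact ⟨⟨⟨by omega, by omega⟩, ⟨by omega, by omega⟩, by omega, by omega⟩, h4⟩

lemma Cs_odd {u q s t : ℕ} (hu : u % 4 = 3) (h : (q, s, t) ∈ Cs u) : s % 2 = 1 ∧ t % 2 = 1 := by
  rw [mem_Cs] at h
  obtain ⟨h1, h2, h3, h4⟩ := h
  have hst : (s * t) % 2 = 1 := by omega
  rw [Nat.mul_mod] at hst
  rcases Nat.mod_two_eq_zero_or_one s with hs | hs <;>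
    rcases Nat.mod_two_eq_zero_or_one t with ht | ht <;> simp [hs, ht] at hst ⊢

lemma Hs_even {u : ℕ} (hu : u % 4 = 3) :
    ((Hs (2 * u)).filter (fun t => ¬ t.1 % 2 = 1)).card = (Cs u).card := by
  symm
  refine Finset.card_bij (fun t _ => if 2 * t.2.1 < t.2.2 then (2 * t.1, 2 * t.2.1, t.2.2) else
    (2 * t.1, t.2.2, 2 * t.2.1)) ?_ ?_ ?_
  · rintro ⟨q, s, t⟩ h
    obtain ⟨o1, o2⟩ := Cs_odd hu h
    rw [mem_Cs] at h
    obtain ⟨h1, h2, h3, h4⟩ := h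
    show (if 2 * s < t then (2 * q, 2 * s, t) else (2 * q, t, 2 * s)) ∈ _
    split_ifs with c
    · rw [mem_filter, mem_Hs]
      refine ⟨⟨by omega, by omega, c, ?_⟩, ?_⟩
      · rw [← h4]; ring
      · show ¬ (2 * q) % 2 = 1
        omega
    · rw [mem_filter, mem_Hs]
      refine ⟨⟨by omega, by omega, by omega, ?_⟩, ?_⟩
      · rw [← h4]; ring
      · show ¬ (2 * q) % 2 = 1
        omega
  · rintro ⟨q, s, t⟩ h ⟨q', s', t'⟩ h' he
    obtain ⟨o1, o2⟩ := Cs_odd hu h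
    obtain ⟨o1', o2'⟩ := Cs_odd hu h'
    simp only at he
    split_ifs at he with c1 c2 c2
    all_goals simp only [Prod.mk.injEq] at he ⊢
    all_goals omega
  · rintro ⟨x, y, z⟩ h
    rw [mem_filter, mem_Hs] at h
    obtain ⟨⟨h1, h2, h3, h4⟩, h5⟩ := h
    simp only at h5
    obtain ⟨q, rfl⟩ : ∃ q, x = 2 * q := ⟨x / 2, by omega⟩
    have h6 : y * z = 2 * (u - 2 * q ^ 2) := by
      have : (2 * q) ^ 2 = 2 * (2 * q ^ 2) := by ring
      omega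
    have h7 : 2 * q ^ 2 < u := by
      have h8 : 0 < y * z := Nat.mul_pos (by omega) (by omega)
      omega
    by_cases hy : y % 2 = 0
    · obtain ⟨s, rfl⟩ : ∃ s, y = 2 * s := ⟨y / 2, by omega⟩
      refine ⟨(q, s, z), ?_, ?_⟩
      · rw [mem_Cs]
        refine ⟨by omega, by omega, by omega, ?_⟩
        have : 2 * s * z = 2 * (s * z) := by ring
        omega
      · simp only
        rw [if_pos h3]
    · have hz : z % 2 = 0 := by
        have h8 : (y * z) % 2 = 0 := by omega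
        rw [Nat.mul_mod, show y % 2 = 1 by omega, one_mul, Nat.mod_mod] at h8
        exact h8
      obtain ⟨s, rfl⟩ : ∃ s, z = 2 * s := ⟨z / 2, by omega⟩
      refine ⟨(q, s, y), ?_, ?_⟩
      · rw [mem_Cs]
        refine ⟨by omega, by omega, by omega, ?_⟩
        have : y * (2 * s) = 2 * (s * y) := by ring
        omega
      · simp only
        rw [if_neg (by omega)]

lemma Cs_parity (u : ℕ) :
    (Cs u).card % 2 = ((Cs u).filter (fun t => t.2.1 = t.2.2)).card % 2 := by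
  rw [parity_invol (Cs u) (fun t => (t.1, t.2.2, t.2.1))]
  · congr 2
    apply Finset.filter_congr
    rintro ⟨x, p, q⟩ _
    simp only [Prod.mk.injEq, true_and]
    omega
  · rintro ⟨q, s, t⟩ h
    rw [mem_Cs] at h
    show (q, t, s) ∈ _
    rw [mem_Cs]
    obtain ⟨h1, h2, h3, h4⟩ := h
    exact ⟨h1, h3, h2, by rw [← h4]; ring⟩
  · intro t _; rfl

lemma Cs_G (u : ℕ) :
    ((Cs u).filter (fun t => t.2.1 = t.2.2)).card =
    ((G (2 * u)).filter (fun t => t.2.2.1 = t.2.2.2 ∧ t.1 = t.2.1)).card := by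
  refine Finset.card_bij (fun t _ => (t.2.1, t.2.1, t.1, t.1)) ?_ ?_ ?_
  · rintro ⟨q, s, t⟩ h
    rw [mem_filter, mem_Cs] at h
    obtain ⟨⟨h1, h2, h3, h4⟩, h5⟩ := h
    simp only at h5
    subst h5
    show (s, s, q, q) ∈ _
    rw [mem_filter, mem_G]
    exact ⟨⟨h2, h2, h1, h1, by rw [← h4]; ring⟩, rfl, rfl⟩
  · rintro ⟨q, s, t⟩ h ⟨q', s', t'⟩ h' he
    rw [mem_filter] at h h'
    simp only [Prod.mk.injEq] at h h' he ⊢
    omega
  · rintro ⟨x, p, q, r⟩ h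
    rw [mem_filter, mem_G] at h
    obtain ⟨⟨h1, h2, h3, h4, h5⟩, h6, h7⟩ := h
    simp only at h6 h7
    subst h6 h7
    refine ⟨(q, x, x), ?_, rfl⟩
    rw [mem_filter, mem_Cs]
    refine ⟨⟨h3, h1, h1, ?_⟩, rfl⟩
    have : x ^ 2 + x ^ 2 + 4 * (q * q) = 2 * (2 * q ^ 2 + x * x) := by ring
    omega

theorem Hs_card_even {u : ℕ} (hu : u % 4 = 3) : (Hs (2 * u)).card % 2 = 0 := by
  have hm : (2 * u) % 8 = 6 := by omega
  have h1 := Finset.card_filter_add_card_filter_not (s := Hs (2 * u)) (fun t => t.1 % 2 = 1)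
  have h2 := Hs_odd hm
  have h3 := Hs_even hu
  have h4 := G_parity hm
  have h5 := G_parity' (2 * u)
  have h6 := Cs_parity u
  have h7 := Cs_G u
  omega

end Pool.Agent.Q224.Nu
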