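import Pool.Agent.Q224.Nu.TwoC

namespace Pool.Agent.Q224.Nu

open Finset

/-- `2 ν₂(2u) + 3 σ(u) ≡ 0 (mod 8)` for `u ≡ 3 (mod 4)`. -/
theorem nu_two_sigma {u : ℕ} (hu : u % 4 = 3) :
    (2 * nu 2 (2 * u) + 3 * ∑ d ∈ u.divisors, d) % 8 = 0 := by
  have h1 := card_Q_N2 (2 * u)
  have h2 := card_Q_eq (m := 2 * u) (by omega)
  obtain ⟨X, h3⟩ := card_Q_eight hu
  have h4 := Hs_card_even hu
  have h5 := card_divisors_nonsq (nonsq_of_mod hu) (by omega)
  set D := (u.divisors.filter (fun y => y * y < u)).card with hD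
  have hcop : Nat.Coprime 2 u := by
    rw [Nat.coprime_two_left]; exact Nat.odd_iff.2 (by omega)
  have h6 : (2 * u).divisors.card = 2 * u.divisors.card := by
    rw [Nat.Coprime.card_divisors_mul hcop]
    congr 1
  have h7 : ∑ d ∈ (2 * u).divisors, d = 3 * ∑ d ∈ u.divisors, d := by
    rw [Nat.Coprime.sum_divisors_mul hcop]
    congr 1
  rw [h7, h6, h5] at h2
  rw [h5] at h3
  rw [nu_two]
  obtain ⟨Y, hY⟩ : ∃ Y, (Hs (2 * u)).card = 2 * Y := ⟨(Hs (2 * u)).card / 2, by omega⟩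
  obtain ⟨T, hT⟩ : ∃ T, D * (D + 1) = 2 * T := by
    obtain ⟨T, hT⟩ := Nat.even_mul_succ_self D
    exact ⟨T, by omega⟩
  rw [hY] at h3
  have h8 : 2 * D * (2 * D) = 4 * (D * (D + 1)) - 4 * D := by
    have : 4 * (D * (D + 1)) = 2 * D * (2 * D) + 4 * D := by ring
    omega
  have h9 : 4 * D ≤ 4 * (D * (D + 1)) := by
    have : 4 * (D * (D + 1)) = 2 * D * (2 * D) + 4 * D := by ring
    omega
  omega

lemma nu_two_six : nu 2 6 % 4 = 2 := by
  rw [nu_two]
  decide +kernel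

/-- The progressions for `ν₂`. -/
lemma prog_two {p : ℕ} (hp : p.Prime) (hp8 : p % 8 = 7) :
    IsProg 2 4 (8 * p ^ 2) (2 * p) := by
  have hp2 := hp.two_le
  refine ⟨by omega, ?_, ?_⟩
  · nlinarith
  · intro n
    obtain ⟨q, hq⟩ : ∃ q, p = 8 * q + 7 := ⟨p / 8, by omega⟩
    set w : ℕ := 4 * p * n + 1 with hw
    have he : 8 * p ^ 2 * n + 2 * p = 2 * (p * w) := by
      rw [hw]; ring
    have hu : (p * w) % 4 = 3 := by
      have h1 : w % 4 = 1 := by
        have : w = 4 * (p * n) + 1 := by rw [hw]; ring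
        omega
      rw [Nat.mul_mod, h1, show p % 4 = 3 by omega]
    have hcop : Nat.Coprime p w := by
      rw [Nat.Prime.coprime_iff_not_dvd hp]
      intro hd
      have h1 : p ∣ 4 * p * n := ⟨4 * n, by ring⟩
      have h2 : p ∣ 1 := (Nat.dvd_add_right h1).1 hd
      have := Nat.le_of_dvd one_pos h2
      omega
    have hs : ∑ d ∈ (p * w).divisors, d = (p + 1) * ∑ d ∈ w.divisors, d := by
      rw [Nat.Coprime.sum_divisors_mul hcop, Nat.Prime.divisors hp,
        Finset.sum_pair (by omega : 1 ≠ p), add_comm 1 p]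
    have h3 := nu_two_sigma hu
    rw [hs] at h3
    have h4 : 3 * ((p + 1) * ∑ d ∈ w.divisors, d) = 8 * (3 * (q + 1) * ∑ d ∈ w.divisors, d) := by
      rw [hq]; ring
    rw [he, Nat.dvd_iff_mod_eq_zero]
    omega

/-- Q1: infinitely many maximal `(ν₂, 4)`-progressions. -/
theorem infinite_two : Set.Infinite {AB : ℕ × ℕ | IsMaxProg 2 4 AB.1 AB.2} := by
  apply infinite_max
  · rw [Nat.dvd_iff_mod_eq_zero, nu_two_six]; decide
  · intro N
    obtain ⟨p, hp1, hp2, hp3⟩ := exists_prime N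
    refine ⟨p, hp1, hp2, 2 * p, ?_, prog_two hp2 hp3⟩
    omega

end Pool.Agent.Q224.Nu
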